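import Pool.Agent.Work.MP_8d2cba_co_h18.Interface

set_option autoImplicit false

namespace Pool.OM.helper81

open Finset Pool.OM

theorem stmt_LP : Stmt_LP := by
  intro X E _ _ _ _ el w hw hy
  -- the degree map
  let T : (E → ℝ) →ₗ[ℝ] (X → ℝ) :=
    { toFun := fun v x => ∑ e ∈ univ.filter (fun e => x ∈ el e), v e
      map_add' := by
        intro a b
        funext x
        simp only [Pi.add_apply, Finset.sum_add_distrib]
      map_smul' := by
        intro c a
        funext x
        simp only [Pi.smul_apply, smul_eq_mul, RingHom.id_apply, Finset.mul_sum] }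
  have hT : ∀ v x, T v x = ∑ e ∈ univ.filter (fun e => x ∈ el e), v e := fun v x => rfl
  have hTc : Continuous T := LinearMap.continuous_of_finiteDimensional T
  have hK : IsCompact (Set.Icc (0 : E → ℝ) (fun e => 2 * w e)) := isCompact_Icc
  have hKc : Convex ℝ (Set.Icc (0 : E → ℝ) (fun e => 2 * w e)) := convex_Icc _ _
  have hs : IsCompact (T '' Set.Icc (0 : E → ℝ) (fun e => 2 * w e)) := hK.image hTc
  have hsc : Convex ℝ (T '' Set.Icc (0 : E → ℝ) (fun e => 2 * w e)) := hKc.linear_image T
  by_cases h1 : (fun _ : X => (1 : ℝ)) ∈ T '' Set.Icc (0 : E → ℝ) (fun e => 2 * w e)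
  · obtain ⟨v, hv, hv1⟩ := h1
    refine ⟨v, fun e => ⟨hv.1 e, hv.2 e⟩, fun x => ?_⟩
    have := congrFun hv1 x
    rw [hT] at this
    exact this
  · exfalso
    obtain ⟨f, u, hf, hu⟩ := geometric_hahn_banach_closed_point hsc hs.isClosed h1
    set y : X → ℝ := fun x => f (Pi.single x 1) with hyd
    have hfy : ∀ a : X → ℝ, f a = ∑ x, y x * a x := by
      intro a
      have e : a = ∑ x, a x • (Pi.single x (1 : ℝ) : X → ℝ) := by
        funext z
        rw [Finset.sum_apply]
        simp only [Pi.smul_apply, Pi.single_apply, smul_eq_mul, mul_ite, mul_one, mul_zero]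
        rw [Finset.sum_ite_eq]
        simp
      conv_lhs => rw [e]
      rw [map_sum]
      refine Finset.sum_congr rfl fun x _ => ?_
      rw [map_smul, smul_eq_mul, mul_comm]
    -- double counting
    have hdc : ∀ v : E → ℝ, ∑ x, y x * (∑ e ∈ univ.filter (fun e => x ∈ el e), v e)
        = ∑ e, v e * ∑ x ∈ el e, y x := by
      intro v
      have e1 : ∀ x, y x * (∑ e ∈ univ.filter (fun e => x ∈ el e), v e)
          = ∑ e, if x ∈ el e then y x * v e else 0 := by
        intro x
        rw [Finset.mul_sum, Finset.sum_filter]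
      have e2 : ∀ e, v e * ∑ x ∈ el e, y x = ∑ x, if x ∈ el e then y x * v e else 0 := by
        intro e
        rw [Finset.mul_sum, ← Finset.sum_filter]
        have : univ.filter (fun x => x ∈ el e) = el e := by
          ext x
          simp
        rw [this]
        refine Finset.sum_congr rfl fun x _ => mul_comm _ _
      simp only [e1, e2]
      exact Finset.sum_comm
    set v : E → ℝ := fun e => if 0 ≤ ∑ x ∈ el e, y x then 2 * w e else 0 with hv
    have hvK : v ∈ Set.Icc (0 : E → ℝ) (fun e => 2 * w e) := by
      constructor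
      · intro e
        simp only [hv, Pi.zero_apply]
        split_ifs
        · have := hw e
          linarith
        · exact le_rfl
      · intro e
        simp only [hv]
        split_ifs
        · exact le_rfl
        · have := hw e
          linarith
    have h2 := hf (T v) ⟨v, hvK, rfl⟩
    rw [hfy] at h2 hu
    have h3 : ∑ x, y x * T v x = ∑ e, (w e * |∑ x ∈ el e, y x| + w e * ∑ x ∈ el e, y x) := by
      simp only [hT]
      rw [hdc]
      refine Finset.sum_congr rfl fun e _ => ?_
      simp only [hv]
      split_ifs with h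
      · rw [abs_of_nonneg h]
        ring
      · rw [abs_of_neg (not_le.mp h)]
        ring
    have h4 := hy y
    have h5 : ∑ x, y x * (1 - ∑ e ∈ univ.filter (fun e => x ∈ el e), w e)
        = ∑ x, y x * 1 - ∑ e, w e * ∑ x ∈ el e, y x := by
      rw [← hdc, ← Finset.sum_sub_distrib]
      refine Finset.sum_congr rfl fun x _ => ?_
      ring
    rw [h3, Finset.sum_add_distrib] at h2
    rw [h5] at h4
    linarith

end Pool.OM.helper81
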