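import Pool.Agent.Work.MP_8d2cba_co_helper81.NBiter

/-! Abstract nibble: choice of the parameters, Stmt_NB. -/

set_option autoImplicit false
set_option linter.unusedSectionVars false
set_option linter.unusedVariables false

namespace Pool.OM.helper81.NB

open Finset

lemma exp_small {x : ℝ} (hx : 0 < x) : Real.exp (-x) ≤ 2 / x ^ 2 := by
  have h := Real.quadratic_le_exp_of_nonneg hx.le
  rw [Real.exp_neg, le_div_iff₀ (by positivity), inv_mul_le_iff₀ (Real.exp_pos _)]
  nlinarith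

/-- parameters which do not depend on `n` -/
structure Par (R M η θ Λ P δ : ℝ) (T : ℕ) : Prop where
  hη : 0 < η
  hθ : 0 < θ
  hθ2 : θ ≤ 1 / 2
  hθR : θ * R ≤ 1
  hΛ : 1 ≤ Λ
  hT : θ * T ≤ Λ
  hP : 1 ≤ P
  hP2 : Real.exp (2 * R * Λ) = P
  hδ : 0 < δ
  b1 : 44 * R ^ 2 * θ * Λ * P ≤ 1 / 6
  b2 : T * δ * P ≤ 1 / 6
  b3 : (1 - θ / 2) ^ T * M ≤ η / 4
  b4 : T * δ ≤ η / 4
  b5 : 8 * R * Λ * θ * M ≤ η / 4

lemma par_exists (R : ℝ) (hR : 1 ≤ R) (M η : ℝ) (hM : 1 ≤ M) (hη : 0 < η) (hη1 : η ≤ 1) :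
    ∃ (θ Λ P δ : ℝ) (T : ℕ), Par R M η θ Λ P δ T := by
  set L := Real.log (4 * M / η) with hL
  have hM0 : 0 < M := by linarith
  have hR0 : 0 < R := by linarith
  have hq : 1 < 4 * M / η := by
    rw [lt_div_iff₀ hη]
    linarith
  have hL0 : 0 < L := Real.log_pos hq
  have hLe : Real.exp (-L) = η / (4 * M) := by
    rw [hL, Real.exp_neg, Real.exp_log (by positivity), inv_div]
  set Λ := 2 * L + 1 with hΛ
  have hΛ1 : 1 ≤ Λ := by linarith
  set P := Real.exp (2 * R * Λ) with hP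
  have hP1 : 1 ≤ P := Real.one_le_exp (by positivity)
  set D := R ^ 2 * M * Λ * P with hD
  have hR2 : R ≤ R ^ 2 := by nlinarith
  have hR21 : 1 ≤ R ^ 2 := by nlinarith
  have hD0 : 0 < D := by positivity
  have d1 : R ≤ D := by
    calc R ≤ R ^ 2 := hR2
      _ = R ^ 2 * 1 * 1 * 1 := by ring
      _ ≤ R ^ 2 * M * Λ * P := by gcongr
  have d0 : 1 ≤ D := hR.trans d1
  have d2 : R ^ 2 * Λ * P ≤ D := by
    calc R ^ 2 * Λ * P = R ^ 2 * 1 * Λ * P := by ring
      _ ≤ R ^ 2 * M * Λ * P := by gcongr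
  have d3 : R * M * Λ ≤ D := by
    calc R * M * Λ = R * M * Λ * 1 := by ring
      _ ≤ R ^ 2 * M * Λ * P := by gcongr
  set θ := η / (300 * D) with hθd
  have hθ0 : 0 < θ := by positivity
  have hθD : θ * D = η / 300 := by
    rw [hθd]
    field_simp
  have e0 : θ ≤ 1 / 300 := by nlinarith
  have e1 : θ * R ≤ 1 / 300 := by
    have := mul_le_mul_of_nonneg_left d1 hθ0.le
    linarith
  have e2 : θ * (R ^ 2 * Λ * P) ≤ 1 / 300 := by
    have := mul_le_mul_of_nonneg_left d2 hθ0.le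
    linarith
  have e3 : θ * (R * M * Λ) ≤ η / 300 := by
    have := mul_le_mul_of_nonneg_left d3 hθ0.le
    linarith
  set T := ⌈2 * L / θ⌉₊ with hT
  have t1 : 2 * L ≤ θ * T := by
    have := Nat.le_ceil (2 * L / θ)
    rw [div_le_iff₀ hθ0] at this
    rw [hT]
    linarith
  have t2 : θ * T ≤ Λ := by
    have := Nat.ceil_lt_add_one (a := 2 * L / θ) (by positivity)
    rw [← hT] at this
    have h2 : θ * (2 * L / θ + 1) = 2 * L + θ := by
      field_simp
    have h3 := mul_le_mul_of_nonneg_left this.le hθ0.le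
    rw [h2] at h3
    linarith
  set δ := η / (6 * (T + 1) * P) with hδd
  have hP0 : 0 < P := by linarith
  have hδ0 : 0 < δ := by positivity
  have hδP : (T + 1) * δ * P = η / 6 := by
    rw [hδd]
    field_simp
  have hT0 : (0 : ℝ) ≤ T := Nat.cast_nonneg _
  have f1 : T * δ * P ≤ η / 6 := by
    have : 0 ≤ δ * P := by positivity
    nlinarith
  have f2 : T * δ ≤ η / 6 := by
    have h1 : 0 ≤ T * δ := by positivity
    nlinarith
  refine ⟨θ, Λ, P, δ, T, hη, hθ0, by linarith, by linarith, hΛ1, t2, hP1, rfl, hδ0, ?_, ?_, ?_,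
    ?_, ?_⟩
  · have : 44 * R ^ 2 * θ * Λ * P = 44 * (θ * (R ^ 2 * Λ * P)) := by ring
    rw [this]
    linarith
  · linarith
  · have g1 : (1 - θ / 2) ^ T ≤ Real.exp (-L) := by
      have h1 : 1 - θ / 2 ≤ Real.exp (-(θ / 2)) := by
        have := Real.add_one_le_exp (-(θ / 2))
        linarith
      calc (1 - θ / 2) ^ T ≤ Real.exp (-(θ / 2)) ^ T :=
            pow_le_pow_left₀ (by linarith) h1 T
        _ = Real.exp (T * (-(θ / 2))) := (Real.exp_nat_mul _ _).symm
        _ ≤ Real.exp (-L) := Real.exp_le_exp.mpr (by linarith)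
    have h2 := mul_le_mul_of_nonneg_right g1 hM0.le
    rw [hLe] at h2
    refine h2.trans (le_of_eq ?_)
    field_simp
  · linarith
  · have : 8 * R * Λ * θ * M = 8 * (θ * (R * M * Λ)) := by ring
    rw [this]
    linarith

theorem abstract_nibble (hMC : Stmt_MCD2) (R : ℕ) (hR : 1 ≤ R) (M η : ℝ) (hM : 1 ≤ M)
    (hη : 0 < η) (hη1 : η ≤ 1) :
    ∃ N : ℕ, ∀ n : ℕ, N ≤ n → ∀ (I Y E : Type) [Fintype I] [Fintype Y] [Fintype E]
      [DecidableEq I] [DecidableEq Y] [DecidableEq E] (σ : I → Y) (ι : E → I)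
      (pt : E → Finset Y) (v : E → ℝ), (Fintype.card I : ℝ) ≤ M * n →
      (Fintype.card Y : ℝ) ≤ M * n → (∀ e, 0 ≤ v e) → (∀ e i, σ i ∈ pt e ↔ ι e = i) →
      (∀ e, (pt e).card ≤ R) → (∀ y, deg pt v y = 1) →
      (∀ y y', y ≠ y' → cod pt v y y' ≤ M / n) →
      ∃ F : Finset E, (∀ e ∈ F, ∀ e' ∈ F, e ≠ e' → Disjoint (pt e) (pt e')) ∧
        (Fintype.card I : ℝ) ≤ F.card + η * n := by
  have hRr : (1 : ℝ) ≤ R := by exact_mod_cast hR
  obtain ⟨θ, Λ, P, δ, T, hp⟩ := par_exists (R : ℝ) hRr M η hM hη hη1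
  obtain ⟨-, hθ, hθ2, hθR, hΛ, hT, hP, hP2, hδ, b1, b2, b3, b4, b5⟩ := hp
  have hM0 : 0 < M := by linarith
  have hP0 : 0 < P := by linarith
  have hR0 : (0 : ℝ) < R := by linarith
  set c₁ := δ ^ 2 / (72 * (R : ℝ) ^ 2 * P ^ 2 * M ^ 3) with hc
  have hc0 : 0 < c₁ := by positivity
  refine ⟨⌈12 * Λ * (R : ℝ) ^ 2 * P ^ 2 * M + 16 * M / c₁ ^ 2⌉₊ + 1, ?_⟩
  intro n hn I Y E _ _ _ _ _ _ σ ι pt v hI hY hv hσ hpt hdeg hcod
  have hn' : 12 * Λ * (R : ℝ) ^ 2 * P ^ 2 * M + 16 * M / c₁ ^ 2 + 1 ≤ n := by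
    have h1 := Nat.le_ceil (12 * Λ * (R : ℝ) ^ 2 * P ^ 2 * M + 16 * M / c₁ ^ 2)
    have h2 : ((⌈12 * Λ * (R : ℝ) ^ 2 * P ^ 2 * M + 16 * M / c₁ ^ 2⌉₊ + 1 : ℕ) : ℝ) ≤ n := by
      exact_mod_cast hn
    push_cast at h2
    linarith
  have q1 : 0 < 16 * M / c₁ ^ 2 := by positivity
  have q2 : 0 < 12 * Λ * (R : ℝ) ^ 2 * P ^ 2 * M := by positivity
  have hn0 : (0 : ℝ) < n := by linarith
  have hn1 : (1 : ℝ) ≤ n := by linarith
  have hS : St pt univ v 0 (M / n) := by
    refine ⟨hv, fun _ _ => Finset.subset_univ _, fun y _ => ?_, hcod⟩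
    rw [hdeg]
    simp
  have hR2 : (R : ℝ) ≤ (R : ℝ) ^ 2 := by nlinarith
  have hPP : P ≤ P ^ 2 := by nlinarith
  have hRPM : R * P * M ≤ n := by
    have : (R : ℝ) * P * M ≤ 12 * Λ * (R : ℝ) ^ 2 * P ^ 2 * M := by
      calc (R : ℝ) * P * M = 1 * 1 * R * P * M := by ring
        _ ≤ 12 * Λ * (R : ℝ) ^ 2 * P ^ 2 * M := by
          gcongr
          norm_num
    linarith
  have hexpT : Real.exp (θ * R) ^ T ≤ P := by
    rw [← hP2, ← Real.exp_nat_mul]
    apply Real.exp_le_exp.mpr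
    have := mul_le_mul_of_nonneg_right hT hR0.le
    have h2 : 0 ≤ Λ * (R : ℝ) := by positivity
    nlinarith
  have hκb : Real.exp (θ * R) ^ T * (M / n) ≤ P * M / n := by
    rw [mul_div_assoc]
    exact mul_le_mul_of_nonneg_right hexpT (by positivity)
  have hκR : (R : ℝ) * (P * M / n) ≤ 1 := by
    rw [← mul_div_assoc, div_le_one hn0]
    linarith
  have hs1 : Fintype.card I * (6 * (R * (P * M / n))) ^ 2 ≤
      36 * (R : ℝ) ^ 2 * P ^ 2 * M ^ 3 / n := by
    have h1 : (Fintype.card I : ℝ) * (6 * (R * (P * M / n))) ^ 2 ≤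
        M * n * (6 * (R * (P * M / n))) ^ 2 := mul_le_mul_of_nonneg_right hI (sq_nonneg _)
    refine h1.trans (le_of_eq ?_)
    field_simp
    ring
  have hexp : Fintype.card Y * (2 * Real.exp (-δ ^ 2 / (2 * (36 * (R : ℝ) ^ 2 * P ^ 2 * M ^ 3 / n)))) +
      2 * Real.exp (-(δ * n) ^ 2 / (2 * (M * n))) < 1 / 2 := by
    have e1 : -δ ^ 2 / (2 * (36 * (R : ℝ) ^ 2 * P ^ 2 * M ^ 3 / n)) = -(c₁ * n) := by
      rw [hc]
      field_simp
      ring
    have e2 : -(δ * n) ^ 2 / (2 * (M * n)) ≤ -(c₁ * n) := by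
      have h1 : -(δ * n) ^ 2 / (2 * (M * n)) = -(δ ^ 2 / (2 * M) * n) := by
        field_simp
      rw [h1, neg_le_neg_iff]
      apply mul_le_mul_of_nonneg_right _ hn0.le
      rw [hc]
      apply div_le_div_of_nonneg_left (by positivity) (by positivity)
      have h3 : 1 ≤ (R : ℝ) ^ 2 := by nlinarith
      have h4 : 1 ≤ P ^ 2 := by nlinarith
      have h5 : M ≤ M ^ 3 := by nlinarith [sq_nonneg (M - 1)]
      calc 2 * M = 2 * 1 * 1 * M := by ring
        _ ≤ 72 * (R : ℝ) ^ 2 * P ^ 2 * M ^ 3 := by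
          gcongr
          norm_num
    rw [e1]
    have h3 := Real.exp_le_exp.mpr e2
    have h4 := exp_small (x := c₁ * n) (by positivity)
    have h5 : (Fintype.card Y : ℝ) * (2 * Real.exp (-(c₁ * n))) ≤
        M * n * (2 * Real.exp (-(c₁ * n))) :=
      mul_le_mul_of_nonneg_right hY (by positivity)
    have h6 : (M * n * 2 + 2) * Real.exp (-(c₁ * n)) ≤ (4 * M * n) * (2 / (c₁ * n) ^ 2) := by
      apply mul_le_mul _ h4 (Real.exp_pos _).le (by positivity)
      nlinarith
    have h7 : (4 * M * n) * (2 / (c₁ * n) ^ 2) = 8 * M / c₁ ^ 2 / n := by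
      field_simp
      ring
    have h8 : 8 * M / c₁ ^ 2 / n < 1 / 2 := by
      rw [div_lt_iff₀ hn0]
      have : 8 * M / c₁ ^ 2 = 16 * M / c₁ ^ 2 / 2 := by ring
      rw [this]
      linarith
    rw [h7] at h6
    linarith
  have hB : (1 + 2 * (θ * R)) ^ T * (T * (44 * (R : ℝ) ^ 2 * θ ^ 2 +
      2 * θ * (R : ℝ) ^ 2 * (P * M / n) + δ)) ≤ 1 / 2 := by
    have h1 : (1 + 2 * (θ * (R : ℝ))) ^ T ≤ P := by
      have h2 : 1 + 2 * (θ * (R : ℝ)) ≤ Real.exp (2 * (θ * R)) := by
        have := Real.add_one_le_exp (2 * (θ * (R : ℝ)))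
        linarith
      calc (1 + 2 * (θ * (R : ℝ))) ^ T ≤ Real.exp (2 * (θ * R)) ^ T :=
            pow_le_pow_left₀ (by positivity) h2 T
        _ = Real.exp (T * (2 * (θ * R))) := (Real.exp_nat_mul _ _).symm
        _ ≤ P := by
          rw [← hP2]
          apply Real.exp_le_exp.mpr
          have := mul_le_mul_of_nonneg_right hT hR0.le
          nlinarith
    have h2 : 2 * Λ * (R : ℝ) ^ 2 * (P * M / n) * P ≤ 1 / 6 := by
      have h3 : 2 * Λ * (R : ℝ) ^ 2 * (P * M / n) * P = (12 * Λ * (R : ℝ) ^ 2 * P ^ 2 * M) / 6 / n := by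
        ring
      rw [h3, div_le_iff₀ hn0]
      linarith
    have hκ0 : 0 ≤ P * M / n := by positivity
    have h3 : (T : ℝ) * (44 * (R : ℝ) ^ 2 * θ ^ 2 + 2 * θ * (R : ℝ) ^ 2 * (P * M / n) + δ) ≤
        44 * (R : ℝ) ^ 2 * θ * Λ + 2 * Λ * (R : ℝ) ^ 2 * (P * M / n) + T * δ := by
      have h4 : (T : ℝ) * (44 * (R : ℝ) ^ 2 * θ ^ 2 + 2 * θ * (R : ℝ) ^ 2 * (P * M / n) + δ) =
        (θ * T) * (44 * (R : ℝ) ^ 2 * θ + 2 * (R : ℝ) ^ 2 * (P * M / n)) + T * δ := by ring
      rw [h4]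
      have h5 : (θ * T) * (44 * (R : ℝ) ^ 2 * θ + 2 * (R : ℝ) ^ 2 * (P * M / n)) ≤
          Λ * (44 * (R : ℝ) ^ 2 * θ + 2 * (R : ℝ) ^ 2 * (P * M / n)) :=
        mul_le_mul_of_nonneg_right hT (by positivity)
      linarith
    have h6 : 0 ≤ (T : ℝ) * (44 * (R : ℝ) ^ 2 * θ ^ 2 + 2 * θ * (R : ℝ) ^ 2 * (P * M / n) + δ) := by
      positivity
    have h7 := mul_le_mul h1 h3 h6 hP0.le
    have h8 : P * (44 * (R : ℝ) ^ 2 * θ * Λ + 2 * Λ * (R : ℝ) ^ 2 * (P * M / n) + T * δ) =
        44 * (R : ℝ) ^ 2 * θ * Λ * P + 2 * Λ * (R : ℝ) ^ 2 * (P * M / n) * P + T * δ * P := by ring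
    rw [h8] at h7
    linarith
  obtain ⟨A, v', F, -, -, k3, k4, k5⟩ := iter hMC hσ hpt (v₀ := v) (κ₀ := M / n)
    (κb := P * M / n) (δ := δ) (δ' := δ * n) (s₁ := 36 * (R : ℝ) ^ 2 * P ^ 2 * M ^ 3 / n)
    (s₂ := M * n) hS hθ hθ2 hθR (by positivity) T hκb hκR hδ (by positivity) hs1
    (by positivity) hI (by positivity) hexp hB T le_rfl
  refine ⟨F, k3, ?_⟩
  have hI0 : (0 : ℝ) ≤ Fintype.card I := Nat.cast_nonneg _
  have z1 : (1 - θ / 2) ^ T * (Fintype.card I : ℝ) ≤ η / 4 * n := by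
    have h1 : (1 - θ / 2) ^ T * (Fintype.card I : ℝ) ≤ (1 - θ / 2) ^ T * (M * n) :=
      mul_le_mul_of_nonneg_left hI (pow_nonneg (by linarith) _)
    have h2 := mul_le_mul_of_nonneg_right b3 hn0.le
    linarith
  have z2 : T * (δ * n) ≤ η / 4 * n := by
    have h2 := mul_le_mul_of_nonneg_right b4 hn0.le
    linarith
  have z3 : T * (8 * R * θ ^ 2 * Fintype.card I) ≤ η / 4 * n := by
    have h1 : (T : ℝ) * (8 * R * θ ^ 2 * Fintype.card I) = (θ * T) * (8 * R * θ * Fintype.card I) := by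
      ring
    have h2 : (θ * T) * (8 * R * θ * Fintype.card I) ≤ Λ * (8 * R * θ * (M * n)) := by
      apply mul_le_mul hT _ (by positivity) (by linarith)
      exact mul_le_mul_of_nonneg_left hI (by positivity)
    have h3 := mul_le_mul_of_nonneg_right b5 hn0.le
    linarith
  have z4 : 0 ≤ η * n := by positivity
  linarith

end Pool.OM.helper81.NB

namespace Pool.OM.helper81

open Finset NB

theorem stmt_NB (hMC : Stmt_MCD2) : Stmt_NB := by
  intro r M η hη
  have hM1 : (1 : ℝ) ≤ 2 * max M 1 := by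
    have := le_max_right M 1
    linarith
  obtain ⟨N, hN⟩ := abstract_nibble hMC (r + 1) (by omega) (2 * max M 1) (min η 1) hM1
    (lt_min hη one_pos) (min_le_right _ _)
  refine ⟨N + 1, ?_⟩
  intro n hn I X E _ _ _ _ _ _ ι el w hI hX hw hel hwi hwx hix hxx
  have hn0 : (0 : ℝ) < n := by exact_mod_cast (by omega : 0 < n)
  have hMM : M * n ≤ max M 1 * n := mul_le_mul_of_nonneg_right (le_max_left _ _) hn0.le
  have hMn : M / n ≤ 2 * max M 1 / n := by
    apply div_le_div_of_nonneg_right _ hn0.le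
    have h1 := le_max_left M 1
    have h2 := le_max_right M 1
    linarith
  have hpos : 0 ≤ 2 * max M 1 / n := by positivity
  obtain ⟨F, hF1, hF2⟩ := hN n (by omega) I (I ⊕ X) E Sum.inl ι
    (fun e => ({ι e} : Finset I).disjSum (el e)) w
    (by
      have h2 := le_max_right M 1
      nlinarith)
    (by
      rw [Fintype.card_sum]
      push_cast
      linarith)
    hw
    (by
      intro e i
      rw [Finset.inl_mem_disjSum, Finset.mem_singleton]
      exact eq_comm)
    (by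
      intro e
      rw [Finset.card_disjSum, Finset.card_singleton]
      have := hel e
      omega)
    (by
      intro y
      cases y with
      | inl i =>
        rw [← hwi i]
        unfold deg
        refine Finset.sum_congr ?_ fun _ _ => rfl
        ext e
        simp only [Finset.mem_filter, Finset.mem_univ, true_and, Finset.inl_mem_disjSum,
          Finset.mem_singleton]
        exact eq_comm
      | inr x =>
        rw [← hwx x]
        unfold deg
        refine Finset.sum_congr ?_ fun _ _ => rfl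
        ext e
        simp only [Finset.mem_filter, Finset.mem_univ, true_and, Finset.inr_mem_disjSum])
    (by
      intro y y' hyy
      cases y with
      | inl i =>
        cases y' with
        | inl i' =>
          have h0 : cod (fun e => ({ι e} : Finset I).disjSum (el e)) w (Sum.inl i) (Sum.inl i') = 0 := by
            unfold cod
            apply Finset.sum_eq_zero
            intro e he
            simp only [Finset.mem_filter, Finset.mem_univ, true_and, Finset.inl_mem_disjSum,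
              Finset.mem_singleton] at he
            exact absurd (congrArg Sum.inl (he.1.trans he.2.symm)) hyy
          rw [h0]
          exact hpos
        | inr x =>
          refine le_trans (le_of_eq ?_) ((hix i x).trans hMn)
          unfold cod
          refine Finset.sum_congr ?_ fun _ _ => rfl
          ext e
          simp only [Finset.mem_filter, Finset.mem_univ, true_and, Finset.inl_mem_disjSum,
            Finset.mem_singleton, Finset.inr_mem_disjSum]
          constructor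
          · rintro ⟨h1, h2⟩
            exact ⟨h1.symm, h2⟩
          · rintro ⟨h1, h2⟩
            exact ⟨h1.symm, h2⟩
      | inr x =>
        cases y' with
        | inl i =>
          refine le_trans (le_of_eq ?_) ((hix i x).trans hMn)
          unfold cod
          refine Finset.sum_congr ?_ fun _ _ => rfl
          ext e
          simp only [Finset.mem_filter, Finset.mem_univ, true_and, Finset.inl_mem_disjSum,
            Finset.mem_singleton, Finset.inr_mem_disjSum]
          constructor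
          · rintro ⟨h1, h2⟩
            exact ⟨h2.symm, h1⟩
          · rintro ⟨h1, h2⟩
            exact ⟨h2, h1.symm⟩
        | inr x' =>
          have hne : x ≠ x' := fun h => hyy (congrArg Sum.inr h)
          refine le_trans (le_of_eq ?_) ((hxx x x' hne).trans hMn)
          unfold cod
          refine Finset.sum_congr ?_ fun _ _ => rfl
          ext e
          simp only [Finset.mem_filter, Finset.mem_univ, true_and, Finset.inr_mem_disjSum])
  refine ⟨F, fun e he e' he' hee => ?_, ?_⟩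
  · have h := hF1 e he e' he' hee
    rw [Finset.disjoint_left] at h
    constructor
    · intro hi
      exact h (Finset.inl_mem_disjSum.mpr (Finset.mem_singleton.mpr rfl))
        (Finset.inl_mem_disjSum.mpr (Finset.mem_singleton.mpr hi))
    · rw [Finset.disjoint_left]
      intro x hx hx'
      exact h (Finset.inr_mem_disjSum.mpr hx) (Finset.inr_mem_disjSum.mpr hx')
  · have h1 : min η 1 * n ≤ η * n := mul_le_mul_of_nonneg_right (min_le_left _ _) hn0.le
    linarith

end Pool.OM.helper81
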