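import Pool.Agent.Work.MP_8d2cba_co_h18.Interface

set_option autoImplicit false

namespace Pool.OM.helper81

open Finset Pool.OM

section
variable {G : Type} [Group G] [Fintype G] [DecidableEq G] (C : Finset G) (Y : G → ℝ)

/-- first differences -/
def qD (h p : G) : ℝ := Y p - Y (h * p)

/-- where the first difference is defined -/
def qC (h : G) : Finset G := univ.filter fun p => p ∈ C ∧ h * p ∈ C

/-- admissible pairs -/
def gd (h p r : G) : Prop := p ≠ r ∧ h * p ≠ r ∧ h * r ≠ p

instance (h p r : G) : Decidable (gd h p r) := by unfold gd; infer_instance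

/-- row sums over admissible pairs -/
noncomputable def qm (h p : G) : ℝ :=
  ∑ x ∈ (qC C h).filter (fun x => gd h p x), |qD Y h p - qD Y h x|

noncomputable def qd (h : G) : ℝ := (∑ r ∈ qC C h, qD Y h r) / (qC C h).card

noncomputable def qE (h : G) : ℝ := ∑ p ∈ qC C h, |qD Y h p - qd C Y h|

lemma qE_nonneg (h : G) : 0 ≤ qE C Y h := Finset.sum_nonneg fun _ _ => abs_nonneg _

lemma qm_nonneg (h p : G) : 0 ≤ qm C Y h p := Finset.sum_nonneg fun _ _ => abs_nonneg _

omit [Fintype G] in
/-- number of non-admissible partners -/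
lemma bad_card (h p : G) (S : Finset G) : (S.filter fun x => ¬ gd h p x).card ≤ 3 := by
  have hsub : (S.filter fun x => ¬ gd h p x) ⊆ {p, h * p, h⁻¹ * p} := by
    intro x hx
    rw [Finset.mem_filter] at hx
    simp only [Finset.mem_insert, Finset.mem_singleton]
    have h2 := hx.2
    unfold gd at h2
    by_contra hcon
    push Not at hcon
    apply h2
    refine ⟨fun e => hcon.1 e.symm, fun e => hcon.2.1 e.symm, fun e => hcon.2.2 ?_⟩
    rw [← e]
    group
  exact (Finset.card_le_card hsub).trans Finset.card_le_three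

/-- comparison of two values through a third one -/
lemma two_step {h p r : G} (hp : p ∈ qC C h) (hr : r ∈ qC C h) :
    (((qC C h).card : ℝ) - 6) * |qD Y h p - qD Y h r| ≤ qm C Y h p + qm C Y h r := by
  have _ := hp
  have _ := hr
  set S := (qC C h).filter fun x => gd h p x ∧ gd h r x with hS
  have hcard : (qC C h).card ≤ S.card + 6 := by
    have h1 := Finset.card_filter_add_card_filter_not (s := qC C h) (p := fun x => gd h p x ∧ gd h r x)
    have h2 : ((qC C h).filter fun x => ¬ (gd h p x ∧ gd h r x)).card ≤ 6 := by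
      have hsub : ((qC C h).filter fun x => ¬ (gd h p x ∧ gd h r x)) ⊆
          ((qC C h).filter fun x => ¬ gd h p x) ∪ ((qC C h).filter fun x => ¬ gd h r x) := by
        intro x hx
        simp only [Finset.mem_filter, Finset.mem_union] at hx ⊢
        tauto
      have h3 := bad_card h p (qC C h)
      have h4 := bad_card h r (qC C h)
      have h5 := (Finset.card_le_card hsub).trans (Finset.card_union_le _ _)
      omega
    rw [← hS] at h1
    omega
  have hreal : ((qC C h).card : ℝ) - 6 ≤ S.card := by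
    have : ((qC C h).card : ℝ) ≤ (S.card + 6 : ℕ) := by exact_mod_cast hcard
    push_cast at this
    linarith
  have h1 : (S.card : ℝ) * |qD Y h p - qD Y h r| ≤
      ∑ x ∈ S, (|qD Y h p - qD Y h x| + |qD Y h r - qD Y h x|) := by
    rw [← nsmul_eq_mul, ← Finset.sum_const]
    apply Finset.sum_le_sum
    intro x _
    have e : qD Y h p - qD Y h r = (qD Y h p - qD Y h x) - (qD Y h r - qD Y h x) := by ring
    rw [e]
    exact abs_sub _ _
  have h2 : ∑ x ∈ S, |qD Y h p - qD Y h x| ≤ qm C Y h p := by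
    unfold qm
    apply Finset.sum_le_sum_of_subset_of_nonneg
    · intro x hx
      rw [hS, Finset.mem_filter] at hx
      rw [Finset.mem_filter]
      exact ⟨hx.1, hx.2.1⟩
    · intro _ _ _
      exact abs_nonneg _
  have h3 : ∑ x ∈ S, |qD Y h r - qD Y h x| ≤ qm C Y h r := by
    unfold qm
    apply Finset.sum_le_sum_of_subset_of_nonneg
    · intro x hx
      rw [hS, Finset.mem_filter] at hx
      rw [Finset.mem_filter]
      exact ⟨hx.1, hx.2.2⟩
    · intro _ _ _
      exact abs_nonneg _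
  rw [Finset.sum_add_distrib] at h1
  have h4 : (((qC C h).card : ℝ) - 6) * |qD Y h p - qD Y h r| ≤
      (S.card : ℝ) * |qD Y h p - qD Y h r| :=
    mul_le_mul_of_nonneg_right hreal (abs_nonneg _)
  linarith

/-- The first difference in direction `h` is almost constant. -/
lemma qE_le {h : G} (hc : 12 ≤ (qC C h).card) :
    ((qC C h).card : ℝ) * qE C Y h ≤ 4 * ∑ p ∈ qC C h, qm C Y h p := by
  set c : ℝ := ((qC C h).card : ℝ) with hcd
  have hc12 : (12 : ℝ) ≤ c := by
    rw [hcd]
    exact_mod_cast hc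
  set S2 : ℝ := ∑ p ∈ qC C h, ∑ r ∈ qC C h, |qD Y h p - qD Y h r| with hS2
  have h1 : (c - 6) * S2 ≤ 2 * c * ∑ p ∈ qC C h, qm C Y h p := by
    have h2 : (c - 6) * S2 ≤ ∑ p ∈ qC C h, ∑ r ∈ qC C h, (qm C Y h p + qm C Y h r) := by
      rw [hS2, Finset.mul_sum]
      apply Finset.sum_le_sum
      intro p hp
      rw [Finset.mul_sum]
      apply Finset.sum_le_sum
      intro r hr
      exact two_step C Y hp hr
    have h3 : ∑ p ∈ qC C h, ∑ r ∈ qC C h, (qm C Y h p + qm C Y h r) =
        2 * c * ∑ p ∈ qC C h, qm C Y h p := by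
      simp only [Finset.sum_add_distrib, Finset.sum_const, nsmul_eq_mul]
      rw [← Finset.mul_sum]
      ring
    linarith
  have hM : 0 ≤ ∑ p ∈ qC C h, qm C Y h p := Finset.sum_nonneg fun _ _ => qm_nonneg _ _ _ _
  have h4 : S2 ≤ 4 * ∑ p ∈ qC C h, qm C Y h p := by
    have h5 : (c - 6) * S2 ≤ (c - 6) * (4 * ∑ p ∈ qC C h, qm C Y h p) := by
      nlinarith
    exact le_of_mul_le_mul_left h5 (by linarith)
  have h6 : c * qE C Y h ≤ S2 := by
    unfold qE
    rw [Finset.mul_sum, hS2]
    apply Finset.sum_le_sum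
    intro p _
    have h7 : c * (qD Y h p - qd C Y h) = ∑ r ∈ qC C h, (qD Y h p - qD Y h r) := by
      rw [Finset.sum_sub_distrib, Finset.sum_const, nsmul_eq_mul]
      unfold qd
      rw [← hcd]
      have : c ≠ 0 := by linarith
      field_simp
    have h8 : c * |qD Y h p - qd C Y h| = |c * (qD Y h p - qd C Y h)| := by
      rw [abs_mul, abs_of_nonneg (by linarith : (0 : ℝ) ≤ c)]
    rw [h8, h7]
    exact Finset.abs_sum_le_sum_abs _ _
  linarith

/-- the second differences, rewritten -/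
lemma sum_good :
    ∑ t ∈ (univ : Finset (G × G × G)).filter (fun t => t.1 ∈ C ∧ t.2.1 ∈ C ∧ t.2.2 ∈ C ∧
        t.2.1 * t.1⁻¹ * t.2.2 ∈ C ∧ t.1 ≠ t.2.1 ∧ t.1 ≠ t.2.2 ∧ t.2.1 ≠ t.2.2 ∧
        t.2.1 * t.1⁻¹ * t.2.2 ≠ t.1),
      |Y t.1 - Y t.2.1 - Y t.2.2 + Y (t.2.1 * t.1⁻¹ * t.2.2)| =
    ∑ h : G, ∑ p ∈ qC C h, qm C Y h p := by
  rw [Finset.sum_filter, Fintype.sum_prod_type]
  have e1 : ∀ p : G, (∑ y : G × G, if p ∈ C ∧ y.1 ∈ C ∧ y.2 ∈ C ∧ y.1 * p⁻¹ * y.2 ∈ C ∧
        p ≠ y.1 ∧ p ≠ y.2 ∧ y.1 ≠ y.2 ∧ y.1 * p⁻¹ * y.2 ≠ p then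
        |Y p - Y y.1 - Y y.2 + Y (y.1 * p⁻¹ * y.2)| else 0) =
      ∑ h : G, ∑ r : G, if p ∈ qC C h ∧ r ∈ qC C h ∧ gd h p r then |qD Y h p - qD Y h r|
        else 0 := by
    intro p
    rw [Fintype.sum_prod_type, ← Equiv.sum_comp (Equiv.mulRight p)]
    refine Finset.sum_congr rfl fun h _ => Finset.sum_congr rfl fun r _ => ?_
    simp only [Equiv.coe_mulRight]
    have e2 : h * p * p⁻¹ * r = h * r := by group
    rw [e2]
    by_cases h1 : h = 1
    · subst h1
      simp [qD]
    · have h2 : p ≠ h * p := by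
        intro e
        apply h1
        have : 1 * p = h * p := by rw [one_mul]; exact e
        exact (mul_right_cancel this).symm
      have hiff : (p ∈ C ∧ h * p ∈ C ∧ r ∈ C ∧ h * r ∈ C ∧ p ≠ h * p ∧ p ≠ r ∧ h * p ≠ r ∧
          h * r ≠ p) ↔ (p ∈ qC C h ∧ r ∈ qC C h ∧ gd h p r) := by
        unfold qC gd
        simp only [Finset.mem_filter, Finset.mem_univ, true_and]
        tauto
      simp only [hiff]
      have e3 : Y p - Y (h * p) - Y r + Y (h * r) = qD Y h p - qD Y h r := by
        unfold qD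
        ring
      rw [e3]
  simp only [e1]
  rw [Finset.sum_comm]
  refine Finset.sum_congr rfl fun h _ => ?_
  have e4 : ∀ p : G, (∑ r : G, if p ∈ qC C h ∧ r ∈ qC C h ∧ gd h p r then
      |qD Y h p - qD Y h r| else 0) = if p ∈ qC C h then qm C Y h p else 0 := by
    intro p
    by_cases hp : p ∈ qC C h
    · simp only [hp, true_and, if_true]
      unfold qm
      rw [← Finset.sum_filter]
      refine Finset.sum_congr ?_ fun _ _ => rfl
      ext x
      simp
    · simp [hp]
  simp only [e4]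
  rw [← Finset.sum_filter]
  refine Finset.sum_congr ?_ fun _ _ => rfl
  ext x
  simp

/-- size of the complement of a translate -/
lemma card_compl_mul (h : G) :
    (univ.filter fun p => h * p ∉ C).card = (univ \ C).card := by
  apply Finset.card_bij (fun p _ => h * p)
  · intro p hp
    simp only [Finset.mem_filter, Finset.mem_univ, true_and, Finset.mem_sdiff] at hp ⊢
    exact hp
  · intro p _ q _ e
    exact mul_left_cancel e
  · intro q hq
    simp only [Finset.mem_sdiff, Finset.mem_univ, true_and] at hq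
    exact ⟨h⁻¹ * q, by simpa using hq, by group⟩

/-- almost additivity of `qd` -/
lemma qd_add {c₀ : ℝ} (g h : G)
    (hT : c₀ ≤ ((univ.filter fun p => p ∈ C ∧ h * p ∈ C ∧ g * (h * p) ∈ C).card : ℝ)) :
    c₀ * |qd C Y (g * h) - qd C Y g - qd C Y h| ≤ qE C Y (g * h) + qE C Y g + qE C Y h := by
  set T := univ.filter fun p => p ∈ C ∧ h * p ∈ C ∧ g * (h * p) ∈ C with hTd
  have h1 : (T.card : ℝ) * |qd C Y (g * h) - qd C Y g - qd C Y h| ≤
      ∑ p ∈ T, (|qD Y (g * h) p - qd C Y (g * h)| + |qD Y g (h * p) - qd C Y g| +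
        |qD Y h p - qd C Y h|) := by
    rw [← nsmul_eq_mul, ← Finset.sum_const]
    apply Finset.sum_le_sum
    intro p _
    have e : qd C Y (g * h) - qd C Y g - qd C Y h = -(qD Y (g * h) p - qd C Y (g * h)) +
        (qD Y g (h * p) - qd C Y g) + (qD Y h p - qd C Y h) := by
      unfold qD
      rw [mul_assoc]
      ring
    rw [e]
    refine (abs_add_le _ _).trans ?_
    have := abs_add_le (-(qD Y (g * h) p - qd C Y (g * h))) (qD Y g (h * p) - qd C Y g)
    rw [abs_neg] at this
    linarith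
  rw [Finset.sum_add_distrib, Finset.sum_add_distrib] at h1
  have h2 : ∑ p ∈ T, |qD Y (g * h) p - qd C Y (g * h)| ≤ qE C Y (g * h) := by
    unfold qE
    apply Finset.sum_le_sum_of_subset_of_nonneg
    · intro p hp
      rw [hTd, Finset.mem_filter] at hp
      unfold qC
      rw [Finset.mem_filter]
      refine ⟨Finset.mem_univ _, hp.2.1, ?_⟩
      rw [mul_assoc]
      exact hp.2.2.2
    · intro _ _ _
      exact abs_nonneg _
  have h3 : ∑ p ∈ T, |qD Y h p - qd C Y h| ≤ qE C Y h := by
    unfold qE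
    apply Finset.sum_le_sum_of_subset_of_nonneg
    · intro p hp
      rw [hTd, Finset.mem_filter] at hp
      unfold qC
      rw [Finset.mem_filter]
      exact ⟨Finset.mem_univ _, hp.2.1, hp.2.2.1⟩
    · intro _ _ _
      exact abs_nonneg _
  have h4 : ∑ p ∈ T, |qD Y g (h * p) - qd C Y g| ≤ qE C Y g := by
    have e : ∑ p ∈ T, |qD Y g (h * p) - qd C Y g| =
        ∑ q ∈ T.image (fun p => h * p), |qD Y g q - qd C Y g| := by
      rw [Finset.sum_image]
      intro p _ q _ e
      exact mul_left_cancel e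
    rw [e]
    unfold qE
    apply Finset.sum_le_sum_of_subset_of_nonneg
    · intro q hq
      rw [Finset.mem_image] at hq
      obtain ⟨p, hp, rfl⟩ := hq
      rw [hTd, Finset.mem_filter] at hp
      unfold qC
      rw [Finset.mem_filter]
      exact ⟨Finset.mem_univ _, hp.2.2.1, hp.2.2.2⟩
    · intro _ _ _
      exact abs_nonneg _
  have h5 : c₀ * |qd C Y (g * h) - qd C Y g - qd C Y h| ≤
      (T.card : ℝ) * |qd C Y (g * h) - qd C Y g - qd C Y h| :=
    mul_le_mul_of_nonneg_right hT (abs_nonneg _)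
  linarith

end

theorem stmt_QC : Stmt_QC := by
  refine ⟨1000, 1/8, 24, by norm_num, ?_⟩
  intro G _ _ _ C Y hN hC
  set n : ℝ := (Fintype.card G : ℝ) with hn
  have hn24 : (24 : ℝ) ≤ n := by
    rw [hn]
    exact_mod_cast hN
  rw [sum_good]
  set M : ℝ := ∑ h : G, ∑ p ∈ qC C h, qm C Y h p with hM
  -- cardinalities
  have hco : ∀ h : G, ((univ.filter fun p => h * p ∉ C).card : ℝ) ≤ 1/8 * n := by
    intro h
    rw [card_compl_mul]
    exact hC
  have hT : ∀ g h : G, 1/2 * n ≤
      ((univ.filter fun p => p ∈ C ∧ h * p ∈ C ∧ g * (h * p) ∈ C).card : ℝ) := by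
    intro g h
    have h1 := Finset.card_filter_add_card_filter_not (s := (univ : Finset G))
      (p := fun p => p ∈ C ∧ h * p ∈ C ∧ g * (h * p) ∈ C)
    have hsub : (univ.filter fun p => ¬ (p ∈ C ∧ h * p ∈ C ∧ g * (h * p) ∈ C)) ⊆
        ((univ.filter fun p => (1 : G) * p ∉ C) ∪ (univ.filter fun p => h * p ∉ C)) ∪
          (univ.filter fun p => (g * h) * p ∉ C) := by
      intro x hx
      simp only [Finset.mem_filter, Finset.mem_union, Finset.mem_univ, true_and, one_mul,
        mul_assoc] at hx ⊢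
      tauto
    have h2 := (Finset.card_le_card hsub).trans (Finset.card_union_le _ _)
    have h3 := Finset.card_union_le (univ.filter fun p => (1 : G) * p ∉ C)
      (univ.filter fun p => h * p ∉ C)
    have h4 := hco 1
    have h5 := hco h
    have h6 := hco (g * h)
    have h7 : ((univ.filter fun p => ¬ (p ∈ C ∧ h * p ∈ C ∧ g * (h * p) ∈ C)).card : ℝ) ≤
        ((univ.filter fun p => (1 : G) * p ∉ C).card : ℝ) +
        ((univ.filter fun p => h * p ∉ C).card : ℝ) +
        ((univ.filter fun p => (g * h) * p ∉ C).card : ℝ) := by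
      exact_mod_cast h2.trans (by omega)
    have h8 : ((univ.filter fun p => p ∈ C ∧ h * p ∈ C ∧ g * (h * p) ∈ C).card : ℝ) +
        ((univ.filter fun p => ¬ (p ∈ C ∧ h * p ∈ C ∧ g * (h * p) ∈ C)).card : ℝ) = n := by
      rw [hn]
      exact_mod_cast h1
    linarith
  have hCh : ∀ h : G, 1/2 * n ≤ ((qC C h).card : ℝ) := by
    intro h
    have h1 := hT 1 h
    have hsub : (univ.filter fun p => p ∈ C ∧ h * p ∈ C ∧ (1 : G) * (h * p) ∈ C) ⊆ qC C h := by
      intro x hx
      unfold qC
      simp only [Finset.mem_filter, Finset.mem_univ, true_and] at hx ⊢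
      exact ⟨hx.1, hx.2.1⟩
    have h2 : ((univ.filter fun p => p ∈ C ∧ h * p ∈ C ∧ (1 : G) * (h * p) ∈ C).card : ℝ) ≤
        ((qC C h).card : ℝ) := by
      exact_mod_cast Finset.card_le_card hsub
    linarith
  -- total error
  set E : ℝ := ∑ h : G, qE C Y h with hE
  have hE0 : 0 ≤ E := Finset.sum_nonneg fun _ _ => qE_nonneg _ _ _
  have hEM : n * E ≤ 8 * M := by
    rw [hE, hM, Finset.mul_sum, Finset.mul_sum]
    apply Finset.sum_le_sum
    intro h _
    have h1 := hCh h
    have h2 : 12 ≤ (qC C h).card := by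
      have : (12 : ℝ) ≤ ((qC C h).card : ℝ) := by linarith
      exact_mod_cast this
    have h3 := qE_le C Y h2
    have h4 := qE_nonneg C Y h
    nlinarith
  -- smallness of qd
  have hd : ∀ g : G, n ^ 2 * |qd C Y g| ≤ 4 * E + 2 * n * qE C Y g := by
    intro g
    have h0 : ∑ h : G, qd C Y (g * h) = ∑ h : G, qd C Y h :=
      Equiv.sum_comp (Equiv.mulLeft g) (fun h => qd C Y h)
    have h1 : n * qd C Y g = -∑ h : G, (qd C Y (g * h) - qd C Y g - qd C Y h) := by
      rw [Finset.sum_sub_distrib, Finset.sum_sub_distrib, Finset.sum_const, Finset.card_univ,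
        nsmul_eq_mul, h0]
      ring
    have h2 : n * |qd C Y g| ≤ ∑ h : G, |qd C Y (g * h) - qd C Y g - qd C Y h| := by
      have e : n * |qd C Y g| = |n * qd C Y g| := by
        rw [abs_mul, abs_of_nonneg (by linarith : (0 : ℝ) ≤ n)]
      rw [e, h1, abs_neg]
      exact Finset.abs_sum_le_sum_abs _ _
    have h3 : (1/2 * n) * ∑ h : G, |qd C Y (g * h) - qd C Y g - qd C Y h| ≤
        ∑ h : G, (qE C Y (g * h) + qE C Y g + qE C Y h) := by
      rw [Finset.mul_sum]
      apply Finset.sum_le_sum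
      intro h _
      exact qd_add C Y g h (hT g h)
    have h0' : ∑ h : G, qE C Y (g * h) = E :=
      Equiv.sum_comp (Equiv.mulLeft g) (fun h => qE C Y h)
    have h4 : ∑ h : G, (qE C Y (g * h) + qE C Y g + qE C Y h) = 2 * E + n * qE C Y g := by
      rw [Finset.sum_add_distrib, Finset.sum_add_distrib, Finset.sum_const, Finset.card_univ,
        nsmul_eq_mul, h0']
      ring
    rw [h4] at h3
    nlinarith
  -- all differences
  have hall : ∑ p ∈ C, ∑ q ∈ C, |Y p - Y q| = ∑ h : G, ∑ p ∈ qC C h, |qD Y h p| := by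
    have e1 : ∀ p ∈ C, ∑ q ∈ C, |Y p - Y q| = ∑ h : G, if h * p ∈ C then |qD Y h p| else 0 := by
      intro p _
      have : ∑ q ∈ C, |Y p - Y q| = ∑ q : G, if q ∈ C then |Y p - Y q| else 0 := by
        rw [← Finset.sum_filter]
        refine Finset.sum_congr ?_ fun _ _ => rfl
        ext x
        simp
      rw [this, ← Equiv.sum_comp (Equiv.mulRight p)]
      rfl
    rw [Finset.sum_congr rfl e1, Finset.sum_comm]
    refine Finset.sum_congr rfl fun h _ => ?_
    rw [← Finset.sum_filter]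
    refine Finset.sum_congr ?_ fun _ _ => rfl
    ext x
    unfold qC
    simp
  have hall2 : n * ∑ p ∈ C, ∑ q ∈ C, |Y p - Y q| ≤ 56 * M := by
    have h1 : ∑ p ∈ C, ∑ q ∈ C, |Y p - Y q| ≤ 7 * E := by
      rw [hall]
      have h2 : ∀ h : G, ∑ p ∈ qC C h, |qD Y h p| ≤ qE C Y h + n * |qd C Y h| := by
        intro h
        have h3 : ∑ p ∈ qC C h, |qD Y h p| ≤ ∑ p ∈ qC C h, (|qD Y h p - qd C Y h| +
            |qd C Y h|) := by
          apply Finset.sum_le_sum
          intro p _
          have := abs_add_le (qD Y h p - qd C Y h) (qd C Y h)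
          rwa [sub_add_cancel] at this
        rw [Finset.sum_add_distrib, Finset.sum_const, nsmul_eq_mul] at h3
        have h4 : ((qC C h).card : ℝ) ≤ n := by
          rw [hn]
          exact_mod_cast Finset.card_le_univ _
        have h5 := mul_le_mul_of_nonneg_right h4 (abs_nonneg (qd C Y h))
        unfold qE
        linarith
      have h6 : n * ∑ h : G, ∑ p ∈ qC C h, |qD Y h p| ≤ n * (7 * E) := by
        have h7 : n * ∑ h : G, ∑ p ∈ qC C h, |qD Y h p| ≤
            ∑ h : G, (n * qE C Y h + (4 * E + 2 * n * qE C Y h)) := by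
          rw [Finset.mul_sum]
          apply Finset.sum_le_sum
          intro h _
          have h8 := mul_le_mul_of_nonneg_left (h2 h) (by linarith : (0 : ℝ) ≤ n)
          have h9 := hd h
          nlinarith
        have h10 : ∑ h : G, (n * qE C Y h + (4 * E + 2 * n * qE C Y h)) = n * (7 * E) := by
          rw [Finset.sum_add_distrib, Finset.sum_add_distrib, Finset.sum_const,
            Finset.card_univ, nsmul_eq_mul, ← Finset.mul_sum, ← Finset.mul_sum, ← hE, ← hn]
          ring
        linarith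
      exact le_of_mul_le_mul_left h6 (by linarith)
    nlinarith
  -- the mean value
  have hCc : 1/2 * n ≤ (C.card : ℝ) := by
    have h1 := hCh 1
    have hsub : qC C (1 : G) ⊆ C := by
      intro x hx
      unfold qC at hx
      simp only [Finset.mem_filter, Finset.mem_univ, true_and] at hx
      exact hx.1
    have h2 : ((qC C (1 : G)).card : ℝ) ≤ (C.card : ℝ) := by
      exact_mod_cast Finset.card_le_card hsub
    linarith
  refine ⟨(∑ q ∈ C, Y q) / C.card, ?_⟩
  have hM0 : 0 ≤ M := by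
    rw [hM]
    exact Finset.sum_nonneg fun _ _ => Finset.sum_nonneg fun _ _ => qm_nonneg _ _ _ _
  have h1 : (C.card : ℝ) * ∑ c ∈ C, |Y c - (∑ q ∈ C, Y q) / C.card| ≤
      ∑ p ∈ C, ∑ q ∈ C, |Y p - Y q| := by
    rw [Finset.mul_sum]
    apply Finset.sum_le_sum
    intro p _
    have h7 : (C.card : ℝ) * (Y p - (∑ q ∈ C, Y q) / C.card) = ∑ r ∈ C, (Y p - Y r) := by
      rw [Finset.sum_sub_distrib, Finset.sum_const, nsmul_eq_mul]
      have : (C.card : ℝ) ≠ 0 := by linarith
      field_simp
    have h8 : (C.card : ℝ) * |Y p - (∑ q ∈ C, Y q) / C.card| =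
        |(C.card : ℝ) * (Y p - (∑ q ∈ C, Y q) / C.card)| := by
      rw [abs_mul, abs_of_nonneg (by linarith : (0 : ℝ) ≤ (C.card : ℝ))]
    rw [h8, h7]
    exact Finset.abs_sum_le_sum_abs _ _
  have h2 : 0 ≤ ∑ c ∈ C, |Y c - (∑ q ∈ C, Y q) / C.card| :=
    Finset.sum_nonneg fun _ _ => abs_nonneg _
  nlinarith

end Pool.OM.helper81
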