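import Mathlib

set_option autoImplicit false

namespace Pool.Agent.Results.MP_8d2cba_co.ExtensionClosure

/-- `G` has an orthomorphism of type `(1,k)`: a permutation `θ` of `G` such that
`x ↦ x⁻¹ θ(x)` is a bijection, `θ` fixes `1`, and every other element lies in a cycle of
length exactly `k`. -/
def HasType (k : ℕ) (G : Type) [Group G] : Prop :=
  ∃ θ : Equiv.Perm G, Function.Bijective (fun x : G => x⁻¹ * θ x) ∧ θ 1 = 1 ∧
    ∀ x : G, x ≠ 1 → Function.minimalPeriod θ x = k

theorem hasType_of_equiv {k : ℕ} {G H : Type} [Group G] [Group H] (e : G ≃* H)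
    (h : HasType k H) : HasType k G := by
  obtain ⟨θ, hb, h1, hp⟩ := h
  refine ⟨(e.toEquiv.trans θ).trans e.symm.toEquiv, ?_, ?_, ?_⟩
  · have : (fun x : G => x⁻¹ * ((e.toEquiv.trans θ).trans e.symm.toEquiv) x) =
        e.symm ∘ (fun x : H => x⁻¹ * θ x) ∘ e := by
      funext x
      simp
    rw [this]
    exact e.symm.bijective.comp (hb.comp e.bijective)
  · simp [h1]
  · intro x hx
    have hx' : e x ≠ 1 := by simpa using hx
    rw [← hp (e x) hx', Function.minimalPeriod_eq_minimalPeriod_iff]
    intro n
    have hit : ∀ (n : ℕ) (y : G),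
        (((e.toEquiv.trans θ).trans e.symm.toEquiv))^[n] y = e.symm (θ^[n] (e y)) := by
      intro n
      induction n with
      | zero => intro y; simp
      | succ n ih =>
        intro y
        rw [Function.iterate_succ_apply, ih, Function.iterate_succ_apply]
        simp
    unfold Function.IsPeriodicPt Function.IsFixedPt
    rw [hit]
    constructor
    · intro h
      have := congrArg e h
      simpa using this
    · intro h
      rw [h]
      simp

section extension

variable {G : Type} [Group G] (N : Subgroup G) [N.Normal]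

open Classical in
/-- a normalised section of `G → G ⧸ N` -/
noncomputable def sec (q : G ⧸ N) : G := if q = 1 then 1 else q.out

theorem sec_one : sec N 1 = 1 := by simp [sec]

theorem mk_sec (q : G ⧸ N) : ((sec N q : G) : G ⧸ N) = q := by
  unfold sec
  split_ifs with h
  · rw [h]; rfl
  · exact Quotient.out_eq' q

theorem mul_sec_inv_mem (x : G) : x * (sec N (x : G ⧸ N))⁻¹ ∈ N := by
  rw [← QuotientGroup.eq_one_iff, QuotientGroup.mk_mul, QuotientGroup.mk_inv, mk_sec]
  simp

/-- `G` as the set `N × (G ⧸ N)` -/
noncomputable def dec : G ≃ N × (G ⧸ N) where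
  toFun x := (⟨x * (sec N (x : G ⧸ N))⁻¹, mul_sec_inv_mem N x⟩, (x : G ⧸ N))
  invFun p := (p.1 : G) * sec N p.2
  left_inv x := by simp
  right_inv p := by
    have h : (((p.1 : G) * sec N p.2 : G) : G ⧸ N) = p.2 := by
      rw [QuotientGroup.mk_mul, mk_sec, (QuotientGroup.eq_one_iff (p.1 : G)).2 p.1.2, one_mul]
    ext
    · simp [h]
    · exact h

theorem extension {k : ℕ} (hN : HasType k N) (hQ : HasType k (G ⧸ N)) : HasType k G := by
  obtain ⟨β, hβb, hβ1, hβp⟩ := hN
  obtain ⟨φ, hφb, hφ1, hφp⟩ := hQ
  set D := dec N with hD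
  have hDs : ∀ p : N × (G ⧸ N), D.symm p = (p.1 : G) * sec N p.2 := fun p => rfl
  have hD2 : ∀ x : G, (D x).2 = (x : G ⧸ N) := fun x => rfl
  have hD1 : ∀ x : G, x = ((D x).1 : G) * sec N (x : G ⧸ N) := by
    intro x
    have := D.symm_apply_apply x
    rw [hDs] at this
    exact this.symm
  set θ : Equiv.Perm G := (D.trans (Equiv.prodCongr β φ)).trans D.symm with hθ
  have hθv : ∀ x : G, θ x = ((β (D x).1 : N) : G) * sec N (φ (x : G ⧸ N)) := fun x => rfl
  have hmk : ∀ x : G, ((x⁻¹ * θ x : G) : G ⧸ N) = (x : G ⧸ N)⁻¹ * φ (x : G ⧸ N) := by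
    intro x
    rw [hθv, QuotientGroup.mk_mul, QuotientGroup.mk_inv, QuotientGroup.mk_mul, mk_sec,
      (QuotientGroup.eq_one_iff ((β (D x).1 : N) : G)).2 (β (D x).1).2, one_mul]
  have hval : ∀ x : G, x⁻¹ * θ x = (sec N (x : G ⧸ N))⁻¹ *
      (((((D x).1)⁻¹ * β (D x).1 : N)) : G) * sec N (φ (x : G ⧸ N)) := by
    intro x
    rw [hθv]
    have h0 : x⁻¹ = (sec N (x : G ⧸ N))⁻¹ * ((D x).1 : G)⁻¹ := by
      rw [← mul_inv_rev, ← hD1 x]
    rw [h0]
    push_cast
    simp only [mul_assoc]
  refine ⟨θ, ⟨?_, ?_⟩, ?_, ?_⟩
  · intro x y hxy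
    simp only at hxy
    have h1 : (x : G ⧸ N) = (y : G ⧸ N) := by
      apply hφb.1
      simp only
      rw [← hmk, ← hmk, hxy]
    rw [hval, hval, h1] at hxy
    have h2 : (((D x).1)⁻¹ * β (D x).1 : N) = ((D y).1)⁻¹ * β (D y).1 := by
      apply Subtype.ext
      exact mul_left_cancel (mul_right_cancel hxy)
    have h3 := hβb.1 h2
    rw [hD1 x, hD1 y, h3, h1]
  · intro y
    obtain ⟨q, hq⟩ := hφb.2 (y : G ⧸ N)
    simp only at hq
    have hν : sec N q * y * (sec N (φ q))⁻¹ ∈ N := by
      rw [← QuotientGroup.eq_one_iff, QuotientGroup.mk_mul, QuotientGroup.mk_mul,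
        QuotientGroup.mk_inv, mk_sec, mk_sec, ← hq]
      group
    obtain ⟨n, hn⟩ := hβb.2 ⟨_, hν⟩
    simp only at hn
    refine ⟨D.symm (n, q), ?_⟩
    simp only
    rw [hval]
    have e1 : ((D.symm (n, q) : G) : G ⧸ N) = q := by
      rw [← hD2, Equiv.apply_symm_apply]
    rw [e1, Equiv.apply_symm_apply]
    simp only
    rw [hn]
    group
  · rw [hθv]
    have h1 : (D 1).1 = 1 := by
      apply Subtype.ext
      have := hD1 1
      rw [QuotientGroup.mk_one, sec_one, mul_one] at this
      exact this.symm
    rw [h1, hβ1, QuotientGroup.mk_one, hφ1, sec_one]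
    simp
  · intro x hx
    have hconj : Function.minimalPeriod θ x =
        Function.minimalPeriod (Prod.map β φ) (D x) := by
      rw [Function.minimalPeriod_eq_minimalPeriod_iff]
      intro n
      have hit : ∀ (n : ℕ) (y : G), θ^[n] y = D.symm ((Prod.map β φ)^[n] (D y)) := by
        intro n
        induction n with
        | zero => intro y; simp
        | succ n ih =>
          intro y
          rw [Function.iterate_succ_apply, ih, Function.iterate_succ_apply]
          simp [hθ, Equiv.prodCongr]
      unfold Function.IsPeriodicPt Function.IsFixedPt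
      rw [hit]
      constructor
      · intro h
        have := congrArg D h
        rwa [Equiv.apply_symm_apply] at this
      · intro h
        rw [h]
        simp
    rw [hconj, Function.minimalPeriod_prodMap]
    have hfN : Function.minimalPeriod β (1 : N) = 1 := by
      rw [Function.minimalPeriod_eq_one_iff_isFixedPt]; exact hβ1
    have hfQ : Function.minimalPeriod φ (1 : G ⧸ N) = 1 := by
      rw [Function.minimalPeriod_eq_one_iff_isFixedPt]; exact hφ1
    by_cases h1 : (D x).1 = 1
    · by_cases h2 : (D x).2 = 1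
      · exfalso
        apply hx
        rw [hD1 x, h1, ← hD2 x, h2, sec_one]
        simp
      · rw [h1, hfN, hφp _ h2]
        simp
    · by_cases h2 : (D x).2 = 1
      · rw [h2, hfQ, hβp _ h1]
        simp
      · rw [hβp _ h1, hφp _ h2]
        simp

end extension

/-- the additive group of a finite field with `q ≡ 1 (mod k)` elements, `k ≥ 2` -/
theorem field_case {k : ℕ} (hk : 2 ≤ k) (F : Type) [Field F] [Finite F]
    (h : k ∣ Nat.card F - 1) : HasType k (Multiplicative F) := by
  classical
  haveI : Fintype F := Fintype.ofFinite F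
  have hcard : Nat.card Fˣ = Nat.card F - 1 := Nat.card_units F
  obtain ⟨g, hg⟩ := IsCyclic.exists_generator (α := Fˣ)
  have hgo : orderOf g = Nat.card Fˣ := orderOf_eq_card_of_forall_mem_zpowers hg
  have hpos : 0 < Nat.card Fˣ := Nat.card_pos
  obtain ⟨m, hm⟩ := h
  have hmpos : 0 < m := by
    rcases Nat.eq_zero_or_pos m with h0 | h0
    · rw [h0, mul_zero] at hm
      rw [hcard, hm] at hpos
      exact absurd hpos (lt_irrefl 0)
    · exact h0
  set u : Fˣ := g ^ m with hu
  have huo : orderOf u = k := by
    rw [hu, orderOf_pow' g hmpos.ne', hgo, hcard, hm]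
    rw [Nat.gcd_eq_right (Dvd.intro_left k rfl)]
    exact Nat.mul_div_cancel k hmpos
  have hu1 : (u : F) ≠ 1 := by
    intro h1
    have : u = 1 := Units.ext h1
    rw [this, orderOf_one] at huo
    omega
  have hsub : (u : F) - 1 ≠ 0 := sub_ne_zero.2 hu1
  let θ : Equiv.Perm (Multiplicative F) :=
    (Multiplicative.toAdd.trans (Units.mulLeft u)).trans Multiplicative.ofAdd
  have hθ : ∀ x : Multiplicative F, θ x = Multiplicative.ofAdd ((u : F) * x.toAdd) :=
    fun x => rfl
  have hit : ∀ (n : ℕ) (y : Multiplicative F),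
      θ^[n] y = Multiplicative.ofAdd ((u : F) ^ n * y.toAdd) := by
    intro n
    induction n with
    | zero => intro y; simp
    | succ n ih =>
      intro y
      rw [Function.iterate_succ_apply, ih, hθ, toAdd_ofAdd, pow_succ]
      congr 1
      ring
  refine ⟨θ, ?_, ?_, ?_⟩
  · have : (fun x : Multiplicative F => x⁻¹ * θ x) =
        fun x => Multiplicative.ofAdd (((u : F) - 1) * x.toAdd) := by
      funext x
      rw [hθ]
      apply Multiplicative.toAdd.injective
      rw [toAdd_mul, toAdd_inv, toAdd_ofAdd, toAdd_ofAdd]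
      ring
    rw [this]
    apply Finite.injective_iff_bijective.1
    intro x y hxy
    have := Multiplicative.ofAdd.injective hxy
    exact Multiplicative.toAdd.injective (mul_left_cancel₀ hsub this)
  · rw [hθ, toAdd_one, mul_zero]; rfl
  · intro x hx
    have hx0 : x.toAdd ≠ 0 := by
      intro h0
      apply hx
      apply Multiplicative.toAdd.injective
      rw [h0, toAdd_one]
    rw [← huo]
    have h1 : ∀ n : ℕ, Function.IsPeriodicPt θ n x ↔ orderOf u ∣ n := by
      intro n
      unfold Function.IsPeriodicPt Function.IsFixedPt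
      rw [hit, orderOf_dvd_iff_pow_eq_one]
      constructor
      · intro h
        have h2 : (u : F) ^ n * x.toAdd = x.toAdd := Multiplicative.ofAdd.injective h
        have h3 : (u : F) ^ n = 1 := by
          have : ((u : F) ^ n) * x.toAdd = 1 * x.toAdd := by rw [h2, one_mul]
          exact mul_right_cancel₀ hx0 this
        apply Units.ext
        push_cast
        exact h3
      · intro h
        have h3 : (u : F) ^ n = 1 := by
          rw [← Units.val_pow_eq_pow_val, h]; rfl
        rw [h3, one_mul]; rfl
    apply Nat.dvd_antisymm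
    · exact ((Function.isPeriodicPt_iff_minimalPeriod_dvd).1 ((h1 _).2 dvd_rfl))
    · exact (h1 _).1 (Function.isPeriodicPt_minimalPeriod θ x)

theorem trivial_case {k : ℕ} (G : Type) [Group G] [Subsingleton G] : HasType k G :=
  ⟨Equiv.refl G, ⟨fun x y _ => Subsingleton.elim x y, fun y => ⟨y, Subsingleton.elim _ _⟩⟩, rfl,
    fun x hx => absurd (Subsingleton.elim x 1) hx⟩

theorem solvable_case {k : ℕ} (hk : 2 ≤ k) : ∀ (n : ℕ) (G : Type) [Group G] [Finite G],
    Nat.card G = n → Group.IsSolvable G → (∀ p : ℕ, p.Prime → p ∣ Nat.card G → k ∣ p - 1) →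
    HasType k G := by
  intro n
  induction n using Nat.strong_induction_on with
  | _ n ih =>
    intro G _ _ hn hsol hp
    rcases subsingleton_or_nontrivial G with hs | hnt
    · exact trivial_case G
    -- a normal subgroup, nontrivial and proper, or `G` of prime order
    have key : ∀ N : Subgroup G, N.Normal → N ≠ ⊥ → N ≠ ⊤ → HasType k G := by
      intro N hNn hb ht
      haveI := hNn
      haveI := hsol
      have hmul : Nat.card G = Nat.card (G ⧸ N) * Nat.card N :=
        Subgroup.card_eq_card_quotient_mul_card_subgroup N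
      have hN1 : 1 < Nat.card N := by
        rw [Subgroup.one_lt_card_iff_ne_bot]; exact hb
      have hQ1 : 1 < Nat.card (G ⧸ N) := by
        have : N.index ≠ 1 := fun h => ht (Subgroup.index_eq_one.1 h)
        have h0 : 0 < Nat.card (G ⧸ N) := Nat.card_pos
        have : Nat.card (G ⧸ N) ≠ 1 := this
        omega
      have hlt1 : Nat.card N < n := by
        rw [← hn, hmul]
        nlinarith
      have hlt2 : Nat.card (G ⧸ N) < n := by
        rw [← hn, hmul]
        nlinarith
      apply extension N
      · exact ih _ hlt1 N rfl inferInstance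
          (fun p hpp hd => hp p hpp (hd.trans (Subgroup.card_subgroup_dvd_card N)))
      · exact ih _ hlt2 (G ⧸ N) rfl inferInstance
          (fun p hpp hd => hp p hpp (hd.trans ⟨_, hmul⟩))
    by_cases hcomm : commutator G = ⊥
    · -- `G` is abelian
      have hab : ∀ a b : G, a * b = b * a := by
        intro a b
        have h1 : a * b * a⁻¹ * b⁻¹ ∈ commutator G :=
          Subgroup.commutator_mem_commutator (Subgroup.mem_top a) (Subgroup.mem_top b)
        rw [hcomm, Subgroup.mem_bot] at h1
        have h2 : a * b * a⁻¹ = b := by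
          rw [mul_inv_eq_one] at h1
          exact h1
        exact mul_inv_eq_iff_eq_mul.1 h2
      obtain ⟨p, hpp, hpd⟩ := Nat.exists_prime_and_dvd
        (n := Nat.card G) (Finite.one_lt_card.ne')
      haveI : Fact p.Prime := ⟨hpp⟩
      obtain ⟨g, hg⟩ := exists_prime_orderOf_dvd_card' p hpd
      by_cases ht : Subgroup.zpowers g = ⊤
      · -- `G` cyclic of order `p`
        have hcard : Nat.card G = p := by
          rw [← hg, ← Nat.card_zpowers, ht]
          exact (Nat.card_congr Subgroup.topEquiv.toEquiv).symm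
        haveI : IsCyclic G := ⟨⟨g, fun x => by
          have : x ∈ Subgroup.zpowers g := by rw [ht]; trivial
          exact this⟩⟩
        have e : G ≃* Multiplicative (ZMod p) := by
          have := zmodCyclicMulEquiv (G := G) inferInstance
          rw [hcard] at this
          exact this.symm
        apply hasType_of_equiv e
        apply field_case hk
        rw [Nat.card_zmod]
        exact hp p hpp hpd
      · apply key (Subgroup.zpowers g) _ _ ht
        · refine ⟨fun x hx y => ?_⟩
          rw [hab y x, mul_inv_cancel_right]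
          exact hx
        · intro hb
          rw [Subgroup.zpowers_eq_bot] at hb
          rw [hb, orderOf_one] at hg
          exact hpp.one_lt.ne hg
    · apply key (commutator G) inferInstance hcomm
      haveI := hsol
      exact (Group.IsSolvable.commutator_lt_top_of_nontrivial G).ne

/-- The admissible factors: groups which have an orthomorphism of type `(1,k)` themselves,
finite solvable groups all of whose prime divisors are `≡ 1 (mod k)`, and elementary abelian
groups of order `≡ 1 (mod k)` (additive groups of finite fields). -/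
def Factor (k : ℕ) (Q : Type) [Group Q] : Prop :=
  HasType k Q ∨
  (Group.IsSolvable Q ∧ ∀ p : ℕ, p.Prime → p ∣ Nat.card Q → p ≡ 1 [MOD k]) ∨
  (∃ (F : Type) (_ : Field F) (_ : Finite F),
    Nat.card F ≡ 1 [MOD k] ∧ Nonempty (Q ≃* Multiplicative F))

theorem factor_hasType {k : ℕ} (hk : 2 ≤ k) (Q : Type) [Group Q] [Finite Q]
    (h : Factor k Q) : HasType k Q := by
  rcases h with h | ⟨hs, h⟩ | ⟨F, _, _, hF, ⟨e⟩⟩
  · exact h
  · refine solvable_case hk _ Q rfl hs (fun p hpp hd => ?_)
    exact (Nat.modEq_iff_dvd' hpp.one_lt.le).1 (h p hpp hd).symm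
  · apply hasType_of_equiv e
    apply field_case hk
    exact (Nat.modEq_iff_dvd' Nat.card_pos).1 hF.symm

/-- A finite group with a subnormal series all of whose factors are admissible has an
orthomorphism of type `(1,k)`. -/
theorem result (k : ℕ) (hk : 2 ≤ k) (G : Type) [Group G] [Finite G]
    (m : ℕ) (H : ℕ → Subgroup G) (h0 : H 0 = ⊥) (hm : H m = ⊤)
    (hH : ∀ i < m, H i ≤ H (i + 1) ∧ ∃ _ : ((H i).subgroupOf (H (i + 1))).Normal,
      Factor k (↥(H (i + 1)) ⧸ (H i).subgroupOf (H (i + 1)))) :
    HasType k G := by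
  have key : ∀ i : ℕ, i ≤ m → HasType k (H i) := by
    intro i
    induction i with
    | zero =>
      intro _
      rw [h0]
      exact trivial_case _
    | succ i ih =>
      intro hi
      obtain ⟨hle, hn, hf⟩ := hH i (by omega)
      apply extension ((H i).subgroupOf (H (i + 1)))
      · exact hasType_of_equiv (Subgroup.subgroupOfEquivOfLe hle) (ih (by omega))
      · exact factor_hasType hk _ hf
  have h1 := key m le_rfl
  rw [hm] at h1
  exact hasType_of_equiv Subgroup.topEquiv.symm h1

end Pool.Agent.Results.MP_8d2cba_co.ExtensionClosure
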