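import Pool.Agent.Work.MP_8d2cba_co_h18.Interface

/-! Abstract nibble: basic estimates. -/

set_option autoImplicit false
set_option linter.unusedSectionVars false
set_option linter.unusedVariables false

namespace Pool.OM.helper81.NB

open Finset

section ex
variable {ι α : Type} [Fintype ι] [DecidableEq ι] [Fintype α] [DecidableEq α]

/-- expectation in a product space -/
noncomputable def Ex (p : ι → α → ℝ) (F : (ι → α) → ℝ) : ℝ := ∑ ω, (∏ i, p i (ω i)) * F ω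

lemma ex_prod (p g : ι → α → ℝ) :
    Ex p (fun ω => ∏ i, g i (ω i)) = ∏ i, ∑ a, p i a * g i a := by
  unfold Ex
  rw [Finset.prod_univ_sum, Fintype.piFinset_univ]
  refine Finset.sum_congr rfl fun ω _ => ?_
  rw [Finset.prod_mul_distrib]

lemma ex_sum {J : Type} (s : Finset J) (p : ι → α → ℝ) (F : J → (ι → α) → ℝ) :
    Ex p (fun ω => ∑ j ∈ s, F j ω) = ∑ j ∈ s, Ex p (F j) := by
  unfold Ex
  simp only [Finset.mul_sum]
  exact Finset.sum_comm

lemma ex_mul (p : ι → α → ℝ) (c : ℝ) (F : (ι → α) → ℝ) :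
    Ex p (fun ω => c * F ω) = c * Ex p F := by
  unfold Ex
  rw [Finset.mul_sum]
  refine Finset.sum_congr rfl fun ω _ => ?_
  ring

lemma ex_mono {p : ι → α → ℝ} (hp : ∀ i a, 0 ≤ p i a) {F F' : (ι → α) → ℝ}
    (h : ∀ ω, F ω ≤ F' ω) : Ex p F ≤ Ex p F' := by
  unfold Ex
  apply Finset.sum_le_sum
  intro ω _
  exact mul_le_mul_of_nonneg_left (h ω) (Finset.prod_nonneg fun i _ => hp i _)

/-- one coordinate -/
lemma ex_coord {p : ι → α → ℝ} (h1 : ∀ i, ∑ a, p i a = 1) (i : ι) (g : α → ℝ) :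
    Ex p (fun ω => g (ω i)) = ∑ a, p i a * g a := by
  have e : (fun ω : ι → α => g (ω i)) = fun ω => ∏ k, (fun k a => if k = i then g a else 1) k (ω k) := by
    funext ω
    rw [Finset.prod_eq_single i]
    · simp
    · intro b _ hb
      simp [hb]
    · intro h
      exact absurd (Finset.mem_univ _) h
  rw [e]
  refine (ex_prod p (fun k a => if k = i then g a else 1)).trans ?_
  rw [Finset.prod_eq_single i]
  · simp
  · intro b _ hb
    simp [hb, h1]
  · intro h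
    exact absurd (Finset.mem_univ _) h

/-- two coordinates -/
lemma ex_two {p : ι → α → ℝ} (h1 : ∀ i, ∑ a, p i a = 1) {i j : ι} (hij : i ≠ j) (a b : α) :
    Ex p (fun ω => (if ω i = a then 1 else 0) * (if ω j = b then (1 : ℝ) else 0)) =
      p i a * p j b := by
  have e : (fun ω : ι → α => (if ω i = a then 1 else 0) * (if ω j = b then (1 : ℝ) else 0)) =
      fun ω => ∏ k, (fun k c => if k = i then (if c = a then (1 : ℝ) else 0) else
        if k = j then (if c = b then 1 else 0) else 1) k (ω k) := by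
    funext ω
    rw [← Finset.mul_prod_erase univ _ (Finset.mem_univ i),
      ← Finset.mul_prod_erase (univ.erase i) _
        (Finset.mem_erase.mpr ⟨hij.symm, Finset.mem_univ j⟩), Finset.prod_eq_one]
    · simp [hij.symm]
    · intro k hk
      simp only [Finset.mem_erase] at hk
      simp [hk.1, hk.2.1]
  rw [e]
  refine (ex_prod p (fun k c => if k = i then (if c = a then (1 : ℝ) else 0) else
        if k = j then (if c = b then 1 else 0) else 1)).trans ?_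
  rw [← Finset.mul_prod_erase univ _ (Finset.mem_univ i),
      ← Finset.mul_prod_erase (univ.erase i) _
        (Finset.mem_erase.mpr ⟨hij.symm, Finset.mem_univ j⟩), Finset.prod_eq_one]
  · simp [hij.symm]
  · intro k hk
    simp only [Finset.mem_erase] at hk
    simp [hk.1, hk.2.1, h1]

end ex

lemma prod_bounds {J : Type} (s : Finset J) (z : J → ℝ) (h0 : ∀ j ∈ s, 0 ≤ z j)
    (h1 : ∀ j ∈ s, z j ≤ 1) :
    1 - ∑ j ∈ s, z j ≤ ∏ j ∈ s, (1 - z j) ∧
      ∏ j ∈ s, (1 - z j) ≤ 1 - ∑ j ∈ s, z j + (∑ j ∈ s, z j) ^ 2 := by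
  classical
  induction s using Finset.induction_on with
  | empty => simp
  | insert a s ha ih =>
    have h0' : ∀ j ∈ s, 0 ≤ z j := fun j hj => h0 j (Finset.mem_insert_of_mem hj)
    have h1' : ∀ j ∈ s, z j ≤ 1 := fun j hj => h1 j (Finset.mem_insert_of_mem hj)
    obtain ⟨l, u⟩ := ih h0' h1'
    rw [Finset.sum_insert ha, Finset.prod_insert ha]
    have za := h0 a (Finset.mem_insert_self _ _)
    have za1 := h1 a (Finset.mem_insert_self _ _)
    have hS : 0 ≤ ∑ j ∈ s, z j := Finset.sum_nonneg h0'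
    set S := ∑ j ∈ s, z j
    set P := ∏ j ∈ s, (1 - z j)
    have k1 := mul_le_mul_of_nonneg_left l (by linarith : (0 : ℝ) ≤ 1 - z a)
    have k2 := mul_le_mul_of_nonneg_left u (by linarith : (0 : ℝ) ≤ 1 - z a)
    have k3 : 0 ≤ z a * S := mul_nonneg za hS
    have k4 : 0 ≤ z a * S ^ 2 := mul_nonneg za (sq_nonneg _)
    constructor
    · nlinarith
    · nlinarith [sq_nonneg (z a)]

section hyper
variable {Y E : Type} [Fintype Y] [DecidableEq Y] [Fintype E] [DecidableEq E]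
  (pt : E → Finset Y)

noncomputable def deg (v : E → ℝ) (y : Y) : ℝ := ∑ e ∈ univ.filter (fun e => y ∈ pt e), v e

noncomputable def cod (v : E → ℝ) (y y' : Y) : ℝ :=
  ∑ e ∈ univ.filter (fun e => y ∈ pt e ∧ y' ∈ pt e), v e

/-- total weight of the edges which meet `S` -/
noncomputable def mt (v : E → ℝ) (S : Finset Y) : ℝ :=
  ∑ e ∈ univ.filter (fun e => ¬ Disjoint (pt e) S), v e

lemma sum_deg (v : E → ℝ) (S : Finset Y) :
    ∑ y ∈ S, deg pt v y = ∑ e, v e * ((pt e ∩ S).card : ℝ) := by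
  unfold deg
  have e1 : ∀ y, ∑ e ∈ univ.filter (fun e => y ∈ pt e), v e = ∑ e, if y ∈ pt e then v e else 0 :=
    fun y => Finset.sum_filter _ _
  simp only [e1]
  rw [Finset.sum_comm]
  refine Finset.sum_congr rfl fun e _ => ?_
  rw [← Finset.sum_filter, Finset.sum_const, nsmul_eq_mul, mul_comm]
  congr 3
  ext y
  simp [and_comm]

lemma sum_cod (v : E → ℝ) (S : Finset Y) :
    ∑ y ∈ S, ∑ y' ∈ S.erase y, cod pt v y y' =
      ∑ e, v e * (((pt e ∩ S).card : ℝ) * (((pt e ∩ S).card : ℝ) - 1)) := by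
  unfold cod
  have e1 : ∀ y y', ∑ e ∈ univ.filter (fun e => y ∈ pt e ∧ y' ∈ pt e), v e =
      ∑ e, if y ∈ pt e ∧ y' ∈ pt e then v e else 0 :=
    fun y y' => Finset.sum_filter _ _
  simp only [e1]
  have e2 : ∀ y ∈ S, ∑ y' ∈ S.erase y, ∑ e, (if y ∈ pt e ∧ y' ∈ pt e then v e else 0) =
      ∑ e, if y ∈ pt e then v e * (((pt e ∩ S).card : ℝ) - 1) else 0 := by
    intro y hy
    rw [Finset.sum_comm]
    refine Finset.sum_congr rfl fun e _ => ?_
    by_cases h : y ∈ pt e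
    · simp only [h, true_and, if_true]
      rw [← Finset.sum_filter, Finset.sum_const, nsmul_eq_mul, mul_comm]
      congr 1
      have h1 : (S.erase y).filter (fun y' => y' ∈ pt e) = (pt e ∩ S).erase y := by
        ext z
        simp only [Finset.mem_filter, Finset.mem_erase, Finset.mem_inter]
        tauto
      rw [h1]
      have h2 : y ∈ pt e ∩ S := Finset.mem_inter.mpr ⟨h, hy⟩
      rw [Finset.card_erase_of_mem h2]
      have h3 : 1 ≤ (pt e ∩ S).card := Finset.card_pos.mpr ⟨y, h2⟩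
      rw [Nat.cast_sub h3]
      simp
    · simp [h]
  rw [Finset.sum_congr rfl e2, Finset.sum_comm]
  refine Finset.sum_congr rfl fun e _ => ?_
  rw [← Finset.sum_filter, Finset.sum_const, nsmul_eq_mul]
  have h1 : S.filter (fun y => y ∈ pt e) = pt e ∩ S := by
    ext z
    simp [and_comm]
  rw [h1]
  ring

lemma mt_le {v : E → ℝ} (hv : ∀ e, 0 ≤ v e) (S : Finset Y) :
    mt pt v S ≤ ∑ y ∈ S, deg pt v y := by
  rw [sum_deg]
  unfold mt
  rw [Finset.sum_filter]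
  apply Finset.sum_le_sum
  intro e _
  split_ifs with h
  · exact mul_nonneg (hv e) (Nat.cast_nonneg _)
  · have h1 : 1 ≤ (pt e ∩ S).card := by
      rw [Finset.not_disjoint_iff] at h
      obtain ⟨a, ha, hb⟩ := h
      exact Finset.card_pos.mpr ⟨a, Finset.mem_inter.mpr ⟨ha, hb⟩⟩
    have h2 : (1 : ℝ) ≤ ((pt e ∩ S).card : ℝ) := by exact_mod_cast h1
    nlinarith [hv e]

lemma mt_ge {v : E → ℝ} (hv : ∀ e, 0 ≤ v e) (S : Finset Y) :
    ∑ y ∈ S, deg pt v y - ∑ y ∈ S, ∑ y' ∈ S.erase y, cod pt v y y' ≤ mt pt v S := by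
  rw [sum_deg, sum_cod, ← Finset.sum_sub_distrib]
  unfold mt
  rw [Finset.sum_filter]
  apply Finset.sum_le_sum
  intro e _
  split_ifs with h
  · have h1 : (pt e ∩ S).card = 0 := by
      rw [Finset.card_eq_zero, ← Finset.disjoint_iff_inter_eq_empty]
      exact h
    rw [h1]
    simp
  · set N : ℕ := (pt e ∩ S).card
    have h2 : (N : ℝ) - (N : ℝ) * ((N : ℝ) - 1) ≤ 1 := by
      nlinarith [sq_nonneg ((N : ℝ) - 1)]
    have h3 := mul_le_mul_of_nonneg_left h2 (hv e)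
    nlinarith

end hyper

/-- The compensated survival probability is close to one. -/
lemma comp_bound {θ β κ s P : ℝ} {k R : ℕ} (hθ : 0 < θ) (hR : θ * R ≤ 1) (hk : k ≤ R)
    (hβ0 : 0 ≤ β) (hβ : β ≤ 1) (hκ0 : 0 ≤ κ) (hκ : R * κ ≤ 1)
    (hs1 : s ≤ k * (1 + β)) (hs2 : k * (1 - β) - (R : ℝ) ^ 2 * κ ≤ s) (hs0 : 0 ≤ s)
    (hP1 : 1 - θ * s ≤ P) (hP2 : P ≤ 1 - θ * s + (θ * s) ^ 2) (hP0 : 0 ≤ P) (hP1' : P ≤ 1) :
    |Real.exp (θ * k) * P - 1| ≤ 22 * (R : ℝ) ^ 2 * θ ^ 2 + θ * R * β + θ * (R : ℝ) ^ 2 * κ := by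
  have hkR : (k : ℝ) ≤ R := by exact_mod_cast hk
  have hk0 : (0 : ℝ) ≤ k := Nat.cast_nonneg _
  have hR0 : (0 : ℝ) ≤ R := Nat.cast_nonneg _
  have hθk : θ * k ≤ 1 := by nlinarith
  have hθk0 : 0 ≤ θ * k := by positivity
  have c1 : 1 + θ * k ≤ Real.exp (θ * k) := by
    have := Real.add_one_le_exp (θ * k)
    linarith
  have c2 : Real.exp (θ * k) ≤ 1 + θ * k + (θ * k) ^ 2 := by
    have h := Real.abs_exp_sub_one_sub_id_le (x := θ * k) (by rw [abs_of_nonneg hθk0]; exact hθk)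
    have := (abs_le.mp h).2
    linarith
  have s2 : s ≤ 2 * R := by nlinarith
  set c := Real.exp (θ * k)
  have t1 : |c - (1 + θ * k)| ≤ (R : ℝ) ^ 2 * θ ^ 2 := by
    rw [abs_of_nonneg (by linarith)]
    have : (θ * k) ^ 2 ≤ (R : ℝ) ^ 2 * θ ^ 2 := by
      rw [mul_pow, mul_comm]
      have : (k : ℝ) ^ 2 ≤ (R : ℝ) ^ 2 := by nlinarith
      nlinarith [sq_nonneg θ]
    linarith
  have t2 : |P - (1 - θ * s)| ≤ 4 * (R : ℝ) ^ 2 * θ ^ 2 := by
    rw [abs_of_nonneg (by linarith)]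
    have : (θ * s) ^ 2 ≤ 4 * (R : ℝ) ^ 2 * θ ^ 2 := by
      have h4 : s ^ 2 ≤ 4 * (R : ℝ) ^ 2 := by nlinarith
      have : θ ^ 2 * s ^ 2 ≤ θ ^ 2 * (4 * (R : ℝ) ^ 2) := by
        apply mul_le_mul_of_nonneg_left h4 (sq_nonneg _)
      nlinarith
    linarith
  have t3 : |(1 + θ * k) * (1 - θ * s) - 1| ≤ θ * (R * β + (R : ℝ) ^ 2 * κ) +
      2 * (R : ℝ) ^ 2 * θ ^ 2 := by
    have e : (1 + θ * k) * (1 - θ * s) - 1 = θ * (k - s) - θ ^ 2 * (k * s) := by ring
    rw [e]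
    have a1 : |(k : ℝ) - s| ≤ R * β + (R : ℝ) ^ 2 * κ := by
      rw [abs_le]
      constructor
      · have : 0 ≤ (R : ℝ) ^ 2 * κ := by positivity
        nlinarith
      · nlinarith
    have a2 : 0 ≤ (k : ℝ) * s := by positivity
    have a3 : (k : ℝ) * s ≤ 2 * (R : ℝ) ^ 2 := by nlinarith
    have a4 : |θ * (k - s)| ≤ θ * (R * β + (R : ℝ) ^ 2 * κ) := by
      rw [abs_mul, abs_of_pos hθ]
      exact mul_le_mul_of_nonneg_left a1 hθ.le
    have a5 : |θ ^ 2 * (k * s)| ≤ 2 * (R : ℝ) ^ 2 * θ ^ 2 := by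
      rw [abs_of_nonneg (by positivity)]
      nlinarith [sq_nonneg θ]
    have := abs_sub (θ * (k - s)) (θ ^ 2 * (k * s))
    linarith
  have e : c * P - 1 = (c - (1 + θ * k)) * P + (1 + θ * k) * (P - (1 - θ * s)) +
      ((1 + θ * k) * (1 - θ * s) - 1) := by ring
  have u1 : |(c - (1 + θ * k)) * P| ≤ (R : ℝ) ^ 2 * θ ^ 2 := by
    rw [abs_mul, abs_of_nonneg hP0]
    nlinarith [abs_nonneg (c - (1 + θ * k))]
  have u2 : |(1 + θ * k) * (P - (1 - θ * s))| ≤ 8 * (R : ℝ) ^ 2 * θ ^ 2 := by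
    rw [abs_mul, abs_of_nonneg (by linarith : (0 : ℝ) ≤ 1 + θ * k)]
    nlinarith [abs_nonneg (P - (1 - θ * s))]
  rw [e]
  have v1 := abs_add_le ((c - (1 + θ * k)) * P + (1 + θ * k) * (P - (1 - θ * s)))
    ((1 + θ * k) * (1 - θ * s) - 1)
  have v2 := abs_add_le ((c - (1 + θ * k)) * P) ((1 + θ * k) * (P - (1 - θ * s)))
  have v3 : 0 ≤ (R : ℝ) ^ 2 * θ ^ 2 := by positivity
  nlinarith

end Pool.OM.helper81.NB
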