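import Pool.Agent.Work.MP_8d2cba_co_helper81.NBstep

/-! Abstract nibble: the iteration. -/

set_option autoImplicit false
set_option linter.unusedSectionVars false
set_option linter.unusedVariables false

namespace Pool.OM.helper81.NB

open Finset

section iter
variable {I Y E : Type} [Fintype I] [DecidableEq I] [Fintype Y] [DecidableEq Y] [Fintype E]
  [DecidableEq E] {σ : I → Y} {ι : E → I} {pt : E → Finset Y}
  {A : Finset Y} {v : E → ℝ} {β κ θ : ℝ} {R : ℕ}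

lemma St.mono (hS : St pt A v β κ) {β' κ' : ℝ} (h1 : β ≤ β') (h2 : κ ≤ κ') :
    St pt A v β' κ' :=
  ⟨hS.nn, hS.sup, fun y hy => (hS.dg y hy).trans h1, fun y y' h => (hS.cd y y' h).trans h2⟩

theorem iter (hM : Stmt_MCD2) (hσ : ∀ e i, σ i ∈ pt e ↔ ι e = i)
    (hpt : ∀ e, (pt e).card ≤ R) {v₀ : E → ℝ} {κ₀ κb δ δ' s₁ s₂ : ℝ}
    (hS : St pt univ v₀ 0 κ₀) (hθ : 0 < θ) (hθ2 : θ ≤ 1/2) (hθR : θ * R ≤ 1) (hκ0 : 0 ≤ κ₀)
    (T : ℕ) (hκb : Real.exp (θ * R) ^ T * κ₀ ≤ κb) (hκR : R * κb ≤ 1)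
    (hδ : 0 < δ) (hδ' : 0 < δ')
    (hs1 : Fintype.card I * (6 * (R * κb)) ^ 2 ≤ s₁) (hs1' : 0 < s₁)
    (hs2 : (Fintype.card I : ℝ) ≤ s₂) (hs2' : 0 < s₂)
    (hexp : Fintype.card Y * (2 * Real.exp (-δ ^ 2 / (2 * s₁))) +
      2 * Real.exp (-δ' ^ 2 / (2 * s₂)) < 1/2)
    (hB : (1 + 2 * (θ * R)) ^ T * (T * (44 * (R : ℝ) ^ 2 * θ ^ 2 + 2 * θ * (R : ℝ) ^ 2 * κb + δ)) ≤
      1 / 2) :
    ∀ t : ℕ, t ≤ T → ∃ (A : Finset Y) (v : E → ℝ) (F : Finset E),
      St pt A v ((1 + 2 * (θ * R)) ^ t *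
        (t * (44 * (R : ℝ) ^ 2 * θ ^ 2 + 2 * θ * (R : ℝ) ^ 2 * κb + δ)))
        (Real.exp (θ * R) ^ t * κ₀) ∧
      (∀ e ∈ F, Disjoint (pt e) A) ∧
      (∀ e ∈ F, ∀ e' ∈ F, e ≠ e' → Disjoint (pt e) (pt e')) ∧
      ((AI σ A).card : ℝ) ≤ (1 - θ / 2) ^ t * Fintype.card I + t * δ' ∧
      (Fintype.card I : ℝ) ≤ (AI σ A).card + F.card + t * (8 * R * θ ^ 2 * Fintype.card I) := by
  set ε₁ := 44 * (R : ℝ) ^ 2 * θ ^ 2 + 2 * θ * (R : ℝ) ^ 2 * κb + δ with hε
  have hex1 : 1 ≤ Real.exp (θ * R) := Real.one_le_exp (by positivity)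
  have hκt : ∀ t, t ≤ T → Real.exp (θ * R) ^ t * κ₀ ≤ κb := fun t ht =>
    (mul_le_mul_of_nonneg_right (pow_le_pow_right₀ hex1 ht) hκ0).trans hκb
  have hκb0 : 0 ≤ κb := le_trans (by positivity) (hκt T le_rfl)
  have hε0 : 0 < ε₁ := by positivity
  have hD1 : 1 ≤ 1 + 2 * (θ * (R : ℝ)) := by
    have : 0 ≤ θ * (R : ℝ) := by positivity
    linarith
  intro t
  induction t with
  | zero =>
    intro _
    refine ⟨univ, v₀, ∅, hS.mono (by simp) (by simp), by simp, by simp, ?_, ?_⟩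
    · have : AI σ (univ : Finset Y) = univ := by
        ext i
        simp [AI]
      rw [this, Finset.card_univ]
      simp
    · have : AI σ (univ : Finset Y) = univ := by
        ext i
        simp [AI]
      rw [this, Finset.card_univ]
      simp
  | succ t ih =>
    intro ht
    obtain ⟨A, v, F, h1, h2, h3, h4, h5⟩ := ih (by omega)
    have hBt : (1 + 2 * (θ * (R : ℝ))) ^ t * (t * ε₁) ≤ 1 / 2 := by
      refine le_trans ?_ hB
      have a1 : (1 + 2 * (θ * (R : ℝ))) ^ t ≤ (1 + 2 * (θ * (R : ℝ))) ^ T :=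
        pow_le_pow_right₀ hD1 (by omega)
      have a2 : (t : ℝ) * ε₁ ≤ T * ε₁ := by
        have : (t : ℝ) ≤ T := by exact_mod_cast (by omega : t ≤ T)
        exact mul_le_mul_of_nonneg_right this hε0.le
      exact mul_le_mul a1 a2 (by positivity) (by positivity)
    have hB0 : 0 ≤ (1 + 2 * (θ * (R : ℝ))) ^ t * (t * ε₁) := by positivity
    have hk := hκt t (by omega)
    have hk0 : 0 ≤ Real.exp (θ * R) ^ t * κ₀ := by positivity
    have hkR : R * (Real.exp (θ * R) ^ t * κ₀) ≤ 1 :=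
      (mul_le_mul_of_nonneg_left hk (Nat.cast_nonneg _)).trans hκR
    have hs1t : Fintype.card I * (6 * (R * (Real.exp (θ * R) ^ t * κ₀))) ^ 2 ≤ s₁ := by
      refine le_trans ?_ hs1
      apply mul_le_mul_of_nonneg_left _ (Nat.cast_nonneg _)
      apply pow_le_pow_left₀ (by positivity)
      apply mul_le_mul_of_nonneg_left _ (by norm_num)
      exact mul_le_mul_of_nonneg_left hk (Nat.cast_nonneg _)
    obtain ⟨A', v', F', k1, k2, k3, k4, k5, k6, k7⟩ := step hM hσ h1 hθ hθ2 hθR hpt hB0 hBt hk0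
      hkR δ δ' s₁ s₂ hδ hδ' hs1t hs1' hs2 hs2' hexp
    have hne : ∀ e, (pt e).Nonempty := fun e => ⟨σ (ι e), (hσ e (ι e)).mpr rfl⟩
    have hdj : Disjoint F F' := by
      rw [Finset.disjoint_left]
      intro e he he'
      obtain ⟨z, hz⟩ := hne e
      exact Finset.disjoint_left.mp (h2 e he) hz (k3 e he' hz)
    refine ⟨A', v', F ∪ F', k2.mono ?_ ?_, ?_, ?_, ?_, ?_⟩
    · have a1 : 2 * θ * (R : ℝ) ^ 2 * (Real.exp (θ * R) ^ t * κ₀) ≤ 2 * θ * (R : ℝ) ^ 2 * κb :=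
        mul_le_mul_of_nonneg_left hk (by positivity)
      have a2 : (1 + 2 * (θ * (R : ℝ))) * ((1 + 2 * (θ * (R : ℝ))) ^ t * (t * ε₁)) + ε₁ ≤
          (1 + 2 * (θ * (R : ℝ))) ^ (t + 1) * (((t + 1 : ℕ) : ℝ) * ε₁) := by
        have a3 : 1 ≤ (1 + 2 * (θ * (R : ℝ))) ^ (t + 1) := one_le_pow₀ hD1
        push_cast
        have a4 : 1 * ε₁ ≤ (1 + 2 * (θ * (R : ℝ))) ^ (t + 1) * ε₁ :=
          mul_le_mul_of_nonneg_right a3 hε0.le
        have a5 : (1 + 2 * (θ * (R : ℝ))) ^ (t + 1) * ((t + 1) * ε₁) =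
          (1 + 2 * (θ * (R : ℝ))) * ((1 + 2 * (θ * (R : ℝ))) ^ t * (t * ε₁)) +
            (1 + 2 * (θ * (R : ℝ))) ^ (t + 1) * ε₁ := by ring
        rw [a5]
        linarith
      refine le_trans ?_ a2
      rw [hε]
      linarith
    · apply le_of_eq
      ring
    · intro e he
      rcases Finset.mem_union.mp he with h | h
      · exact (h2 e h).mono_right k1
      · exact k4 e h
    · intro e he e' he' hee
      rcases Finset.mem_union.mp he with h | h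
      · rcases Finset.mem_union.mp he' with h' | h'
        · exact h3 e h e' h' hee
        · exact (h2 e h).mono_right (k3 e' h')
      · rcases Finset.mem_union.mp he' with h' | h'
        · exact ((h2 e' h').mono_right (k3 e h)).symm
        · exact k5 e h e' h' hee
    · have a1 : (1 - θ / 2) * ((AI σ A).card : ℝ) ≤
          (1 - θ / 2) * ((1 - θ / 2) ^ t * Fintype.card I + t * δ') :=
        mul_le_mul_of_nonneg_left h4 (by linarith)
      have a2 : 0 ≤ θ / 2 * (t * δ') := by positivity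
      push_cast
      rw [pow_succ]
      nlinarith
    · rw [Finset.card_union_of_disjoint hdj]
      push_cast
      linarith

end iter

end Pool.OM.helper81.NB
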