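import Pool.Agent.Work.MP_8d2cba_co_helper81.NBbasic

/-! Abstract nibble: one round. -/

set_option autoImplicit false
set_option linter.unusedSectionVars false
set_option linter.unusedVariables false

namespace Pool.OM.helper81.NB

open Finset

section round
variable {I Y E : Type} [Fintype I] [DecidableEq I] [Fintype Y] [DecidableEq Y] [Fintype E]
  [DecidableEq E] (σ : I → Y) (ι : E → I) (pt : E → Finset Y)

/-- state of the nibble -/
structure St (A : Finset Y) (v : E → ℝ) (β κ : ℝ) : Prop where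
  nn : ∀ e, 0 ≤ v e
  sup : ∀ e, v e ≠ 0 → pt e ⊆ A
  dg : ∀ y ∈ A, |deg pt v y - 1| ≤ β
  cd : ∀ y y', y ≠ y' → cod pt v y y' ≤ κ

/-- alive indices -/
def AI (A : Finset Y) : Finset I := univ.filter fun i => σ i ∈ A

/-- probabilities of the picks -/
noncomputable def pp (θ : ℝ) (v : E → ℝ) (i : I) : Option E → ℝ
  | none => 1 - θ * deg pt v (σ i)
  | some e => if ι e = i then θ * v e else 0

/-- survival function of one pick -/
noncomputable def gB (B : Finset E) : Option E → ℝ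
  | none => 1
  | some e => if e ∈ B then 0 else 1

noncomputable def surv (B : Finset E) (ω : I → Option E) : ℝ := ∏ j, gB B (ω j)

lemma surv_eq (B : Finset E) (ω : I → Option E) :
    surv B ω = 1 ∧ (∀ j e, ω j = some e → e ∉ B) ∨
      surv B ω = 0 ∧ ∃ j e, ω j = some e ∧ e ∈ B := by
  by_cases h : ∀ j e, ω j = some e → e ∉ B
  · left
    refine ⟨?_, h⟩
    unfold surv
    apply Finset.prod_eq_one
    intro j _
    cases hj : ω j with
    | none => rfl
    | some e => simp [gB, h j e hj]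
  · right
    push Not at h
    obtain ⟨j, e, hj, he⟩ := h
    refine ⟨?_, j, e, hj, he⟩
    unfold surv
    apply Finset.prod_eq_zero (Finset.mem_univ j)
    rw [hj]
    simp [gB, he]

/-- edges whose pick kills `e` (seen from `y`) -/
def Bad (e : E) (y : Y) : Finset E := univ.filter fun e' => ¬ Disjoint (pt e') ((pt e).erase y)

noncomputable def cx (θ : ℝ) (e : E) : ℝ := Real.exp (θ * (((pt e).card - 1 : ℕ) : ℝ))

noncomputable def Zf (θ : ℝ) (v : E → ℝ) (y : Y) (ω : I → Option E) : ℝ :=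
  ∑ e ∈ univ.filter (fun e => y ∈ pt e), v e * cx pt θ e * surv (Bad pt e y) ω

variable {σ ι pt} {A : Finset Y} {v : E → ℝ} {β κ θ : ℝ} {R : ℕ}

lemma deg_nonneg (hS : St pt A v β κ) (y : Y) : 0 ≤ deg pt v y :=
  Finset.sum_nonneg fun e _ => hS.nn e

lemma deg_le (hS : St pt A v β κ) (hβ0 : 0 ≤ β) (y : Y) : deg pt v y ≤ 1 + β := by
  by_cases h : y ∈ A
  · have := (abs_le.mp (hS.dg y h)).2
    linarith
  · have : deg pt v y = 0 := by
      unfold deg
      apply Finset.sum_eq_zero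
      intro e he
      by_contra hne
      simp only [Finset.mem_filter, Finset.mem_univ, true_and] at he
      exact h (hS.sup e hne he)
    rw [this]
    linarith

lemma deg_idx (hσ : ∀ e i, σ i ∈ pt e ↔ ι e = i) (i : I) :
    deg pt v (σ i) = ∑ e ∈ univ.filter (fun e => ι e = i), v e := by
  unfold deg
  refine Finset.sum_congr ?_ fun _ _ => rfl
  ext e
  simp [hσ]

lemma pp_nonneg (hS : St pt A v β κ) (hθ : 0 < θ) (hθ2 : θ ≤ 1/2) (hβ0 : 0 ≤ β)
    (hβ : β ≤ 1) (i : I) (a : Option E) : 0 ≤ pp σ ι pt θ v i a := by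
  cases a with
  | none =>
    have := deg_le hS hβ0 (σ i)
    have h0 := deg_nonneg hS (σ i)
    simp only [pp]
    nlinarith
  | some e =>
    simp only [pp]
    split_ifs
    · exact mul_nonneg hθ.le (hS.nn e)
    · exact le_rfl

lemma pp_sum (hσ : ∀ e i, σ i ∈ pt e ↔ ι e = i) (i : I) : ∑ a, pp σ ι pt θ v i a = 1 := by
  rw [Fintype.sum_option]
  simp only [pp]
  rw [deg_idx hσ, ← Finset.sum_filter, ← Finset.mul_sum]
  ring

/-- survival probability -/
lemma ex_surv (hσ : ∀ e i, σ i ∈ pt e ↔ ι e = i) (B : Finset E) :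
    Ex (pp σ ι pt θ v) (surv B) =
      ∏ j, (1 - θ * ∑ e ∈ B.filter (fun e => ι e = j), v e) := by
  have h := ex_prod (pp σ ι pt θ v) (fun _ : I => gB B)
  unfold surv
  rw [h]
  refine Finset.prod_congr rfl fun j _ => ?_
  rw [Fintype.sum_option]
  simp only [pp, gB, mul_one]
  rw [deg_idx hσ]
  have e1 : ∑ e, (if ι e = j then θ * v e else 0) * (if e ∈ B then (0 : ℝ) else 1) =
      θ * ∑ e ∈ univ.filter (fun e => ι e = j), v e -
        θ * ∑ e ∈ B.filter (fun e => ι e = j), v e := by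
    have e2 : ∑ e ∈ B.filter (fun e => ι e = j), v e =
        ∑ e, if e ∈ B ∧ ι e = j then v e else 0 := by
      rw [← Finset.sum_filter]
      refine Finset.sum_congr ?_ fun _ _ => rfl
      ext e
      simp
    rw [e2, Finset.sum_filter, Finset.mul_sum, Finset.mul_sum, ← Finset.sum_sub_distrib]
    refine Finset.sum_congr rfl fun e _ => ?_
    by_cases h1 : ι e = j
    · by_cases h2 : e ∈ B
      · simp [h1, h2]
      · simp [h1, h2]
    · simp [h1]
  rw [e1]
  ring

lemma surv_bounds (hσ : ∀ e i, σ i ∈ pt e ↔ ι e = i) (hS : St pt A v β κ) (hθ : 0 < θ)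
    (hθ2 : θ ≤ 1/2) (hβ0 : 0 ≤ β) (hβ : β ≤ 1) (B : Finset E) :
    1 - θ * ∑ e ∈ B, v e ≤ Ex (pp σ ι pt θ v) (surv B) ∧
    Ex (pp σ ι pt θ v) (surv B) ≤ 1 - θ * ∑ e ∈ B, v e + (θ * ∑ e ∈ B, v e) ^ 2 ∧
    0 ≤ Ex (pp σ ι pt θ v) (surv B) ∧ Ex (pp σ ι pt θ v) (surv B) ≤ 1 := by
  rw [ex_surv hσ]
  have hz0 : ∀ j : I, 0 ≤ θ * ∑ e ∈ B.filter (fun e => ι e = j), v e := fun j =>
    mul_nonneg hθ.le (Finset.sum_nonneg fun e _ => hS.nn e)
  have hz1 : ∀ j : I, θ * ∑ e ∈ B.filter (fun e => ι e = j), v e ≤ 1 := by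
    intro j
    have h1 : ∑ e ∈ B.filter (fun e => ι e = j), v e ≤ deg pt v (σ j) := by
      rw [deg_idx hσ]
      apply Finset.sum_le_sum_of_subset_of_nonneg
      · intro e he
        simp only [Finset.mem_filter, Finset.mem_univ, true_and] at he ⊢
        exact he.2
      · intro e _ _
        exact hS.nn e
    have h2 := deg_le hS hβ0 (σ j)
    have h3 : 0 ≤ ∑ e ∈ B.filter (fun e => ι e = j), v e := Finset.sum_nonneg fun e _ => hS.nn e
    nlinarith
  have hsum : ∑ j : I, θ * ∑ e ∈ B.filter (fun e => ι e = j), v e = θ * ∑ e ∈ B, v e := by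
    rw [← Finset.mul_sum, Finset.sum_fiberwise]
  obtain ⟨l, u⟩ := prod_bounds (univ : Finset I)
    (fun j => θ * ∑ e ∈ B.filter (fun e => ι e = j), v e) (fun j _ => hz0 j) (fun j _ => hz1 j)
  rw [hsum] at l u
  refine ⟨l, u, ?_, ?_⟩
  · exact Finset.prod_nonneg fun j _ => by linarith [hz1 j]
  · exact Finset.prod_le_one (fun j _ => by linarith [hz1 j]) (fun j _ => by linarith [hz0 j])

lemma cx_pos (e : E) : 0 < cx pt θ e := Real.exp_pos _

lemma cx_le (hθ : 0 < θ) (hθR : θ * R ≤ 1) (hpt : ∀ e, (pt e).card ≤ R) (e : E) :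
    cx pt θ e ≤ 3 ∧ cx pt θ e ≤ Real.exp (θ * R) := by
  have h1 : (((pt e).card - 1 : ℕ) : ℝ) ≤ R := by
    have := hpt e
    exact_mod_cast (by omega : (pt e).card - 1 ≤ R)
  have h2 : θ * (((pt e).card - 1 : ℕ) : ℝ) ≤ θ * R := mul_le_mul_of_nonneg_left h1 hθ.le
  constructor
  · unfold cx
    calc Real.exp (θ * (((pt e).card - 1 : ℕ) : ℝ)) ≤ Real.exp 1 :=
          Real.exp_le_exp.mpr (h2.trans hθR)
      _ ≤ 3 := by
        have := Real.exp_one_lt_d9
        linarith
  · exact Real.exp_le_exp.mpr h2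

/-- expectation of the new degree -/
lemma ex_Z (hσ : ∀ e i, σ i ∈ pt e ↔ ι e = i) (hS : St pt A v β κ) (hθ : 0 < θ)
    (hθ2 : θ ≤ 1/2) (hθR : θ * R ≤ 1) (hpt : ∀ e, (pt e).card ≤ R) (hβ0 : 0 ≤ β)
    (hβ : β ≤ 1) (hκ0 : 0 ≤ κ) (hκR : R * κ ≤ 1) {y : Y} (hy : y ∈ A) :
    |Ex (pp σ ι pt θ v) (Zf pt θ v y) - 1| ≤
      β + 2 * (22 * (R : ℝ) ^ 2 * θ ^ 2 + θ * R * β + θ * (R : ℝ) ^ 2 * κ) := by
  set bnd := 22 * (R : ℝ) ^ 2 * θ ^ 2 + θ * R * β + θ * (R : ℝ) ^ 2 * κ with hb
  have hb0 : 0 ≤ bnd := by positivity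
  have h1 : Ex (pp σ ι pt θ v) (Zf pt θ v y) = ∑ e ∈ univ.filter (fun e => y ∈ pt e),
      v e * (cx pt θ e * Ex (pp σ ι pt θ v) (surv (Bad pt e y))) := by
    unfold Zf
    rw [ex_sum]
    refine Finset.sum_congr rfl fun e _ => ?_
    rw [ex_mul]
    ring
  have h2 : ∀ e ∈ univ.filter (fun e => y ∈ pt e),
      |v e * (cx pt θ e * Ex (pp σ ι pt θ v) (surv (Bad pt e y))) - v e| ≤ v e * bnd := by
    intro e he
    simp only [Finset.mem_filter, Finset.mem_univ, true_and] at he
    by_cases hv : v e = 0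
    · rw [hv]
      simp
    have hA := hS.sup e hv
    obtain ⟨p1, p2, p3, p4⟩ := surv_bounds hσ hS hθ hθ2 hβ0 hβ (Bad pt e y)
    have hs : ∑ e' ∈ Bad pt e y, v e' = mt pt v ((pt e).erase y) := rfl
    rw [hs] at p1 p2
    have hcard : ((pt e).erase y).card = (pt e).card - 1 := Finset.card_erase_of_mem he
    have hkR : (pt e).card - 1 ≤ R := by
      have := hpt e
      omega
    have hs1 : mt pt v ((pt e).erase y) ≤ (((pt e).card - 1 : ℕ) : ℝ) * (1 + β) := by
      refine (mt_le pt hS.nn _).trans ?_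
      rw [← hcard, ← nsmul_eq_mul, ← Finset.sum_const]
      exact Finset.sum_le_sum fun z _ => deg_le hS hβ0 z
    have hs2 : (((pt e).card - 1 : ℕ) : ℝ) * (1 - β) - (R : ℝ) ^ 2 * κ ≤
        mt pt v ((pt e).erase y) := by
      refine le_trans ?_ (mt_ge pt hS.nn _)
      have a1 : (((pt e).card - 1 : ℕ) : ℝ) * (1 - β) ≤ ∑ z ∈ (pt e).erase y, deg pt v z := by
        rw [← hcard, ← nsmul_eq_mul, ← Finset.sum_const]
        apply Finset.sum_le_sum
        intro z hz
        have := (abs_le.mp (hS.dg z (hA (Finset.mem_of_mem_erase hz)))).1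
        linarith
      have a2 : ∑ z ∈ (pt e).erase y, ∑ z' ∈ ((pt e).erase y).erase z, cod pt v z z' ≤
          (R : ℝ) ^ 2 * κ := by
        have a3 : ∀ z ∈ (pt e).erase y, ∑ z' ∈ ((pt e).erase y).erase z, cod pt v z z' ≤
            R * κ := by
          intro z hz
          have a4 : ∑ z' ∈ ((pt e).erase y).erase z, cod pt v z z' ≤
              ∑ z' ∈ ((pt e).erase y).erase z, κ :=
            Finset.sum_le_sum fun z' hz' => hS.cd z z' (Finset.ne_of_mem_erase hz').symm
          rw [Finset.sum_const, nsmul_eq_mul] at a4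
          refine a4.trans (mul_le_mul_of_nonneg_right ?_ hκ0)
          have : (((pt e).erase y).erase z).card ≤ R :=
            (Finset.card_le_card (Finset.erase_subset _ _)).trans (by omega)
          exact_mod_cast this
        have a5 := Finset.sum_le_sum a3
        rw [Finset.sum_const, nsmul_eq_mul, hcard] at a5
        refine a5.trans ?_
        have : (((pt e).card - 1 : ℕ) : ℝ) ≤ R := by exact_mod_cast hkR
        have h5 : 0 ≤ (R : ℝ) * κ := by positivity
        nlinarith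
      linarith
    have hs0 : 0 ≤ mt pt v ((pt e).erase y) := Finset.sum_nonneg fun e _ => hS.nn e
    have hc := comp_bound hθ hθR hkR hβ0 hβ hκ0 hκR hs1 hs2 hs0 p1 p2 p3 p4
    have e3 : v e * (cx pt θ e * Ex (pp σ ι pt θ v) (surv (Bad pt e y))) - v e =
        v e * (cx pt θ e * Ex (pp σ ι pt θ v) (surv (Bad pt e y)) - 1) := by ring
    rw [e3, abs_mul, abs_of_nonneg (hS.nn e)]
    exact mul_le_mul_of_nonneg_left hc (hS.nn e)
  have h3 : |Ex (pp σ ι pt θ v) (Zf pt θ v y) - deg pt v y| ≤ deg pt v y * bnd := by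
    rw [h1]
    unfold deg
    rw [← Finset.sum_sub_distrib, Finset.sum_mul]
    exact (Finset.abs_sum_le_sum_abs _ _).trans (Finset.sum_le_sum h2)
  have h4 := hS.dg y hy
  have h5 := deg_le hS hβ0 y
  have h6 := deg_nonneg hS y
  have h7 := abs_add_le (Ex (pp σ ι pt θ v) (Zf pt θ v y) - deg pt v y) (deg pt v y - 1)
  rw [sub_add_sub_cancel] at h7
  nlinarith

/-- influence of one pick on the new degree -/
lemma infl (hS : St pt A v β κ) (hθ : 0 < θ) (hθR : θ * R ≤ 1)
    (hpt : ∀ e, (pt e).card ≤ R) (hκ0 : 0 ≤ κ) (y : Y) (e₁ : E) :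
    ∑ e ∈ univ.filter (fun e => y ∈ pt e), v e * cx pt θ e *
      (if e₁ ∈ Bad pt e y then (1 : ℝ) else 0) ≤ 3 * (R * κ) := by
  have h1 : ∑ e ∈ univ.filter (fun e => y ∈ pt e), v e * cx pt θ e *
      (if e₁ ∈ Bad pt e y then (1 : ℝ) else 0) ≤
      3 * ∑ z ∈ (pt e₁).erase y, cod pt v y z := by
    unfold cod
    rw [Finset.mul_sum]
    have e1 : ∀ z ∈ (pt e₁).erase y, 3 * ∑ e ∈ univ.filter (fun e => y ∈ pt e ∧ z ∈ pt e), v e =
        ∑ e ∈ univ.filter (fun e => y ∈ pt e), if z ∈ pt e then 3 * v e else 0 := by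
      intro z _
      rw [← Finset.sum_filter, Finset.filter_filter, Finset.mul_sum]
    rw [Finset.sum_congr rfl e1, Finset.sum_comm]
    apply Finset.sum_le_sum
    intro e he
    simp only [Finset.mem_filter, Finset.mem_univ, true_and] at he
    split_ifs with h
    · unfold Bad at h
      simp only [Finset.mem_filter, Finset.mem_univ, true_and] at h
      rw [Finset.not_disjoint_iff] at h
      obtain ⟨z, hz1, hz2⟩ := h
      have hz3 : z ∈ (pt e₁).erase y := by
        rw [Finset.mem_erase] at hz2 ⊢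
        exact ⟨hz2.1, hz1⟩
      have hz4 : z ∈ pt e := Finset.mem_of_mem_erase hz2
      have h2 : (if z ∈ pt e then 3 * v e else 0) ≤
          ∑ z ∈ (pt e₁).erase y, if z ∈ pt e then 3 * v e else 0 := by
        refine Finset.single_le_sum (f := fun z => if z ∈ pt e then 3 * v e else 0) ?_ hz3
        intro z _
        have := hS.nn e
        split_ifs
        · positivity
        · exact le_rfl
      rw [if_pos hz4] at h2
      have h3 := (cx_le hθ hθR hpt e).1
      have h4 := hS.nn e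
      nlinarith
    · rw [mul_zero]
      apply Finset.sum_nonneg
      intro z _
      have := hS.nn e
      split_ifs
      · positivity
      · exact le_rfl
  have h2 : ∑ z ∈ (pt e₁).erase y, cod pt v y z ≤ R * κ := by
    have a4 : ∑ z ∈ (pt e₁).erase y, cod pt v y z ≤ ∑ z ∈ (pt e₁).erase y, κ :=
      Finset.sum_le_sum fun z hz => hS.cd y z (Finset.ne_of_mem_erase hz).symm
    rw [Finset.sum_const, nsmul_eq_mul] at a4
    refine a4.trans (mul_le_mul_of_nonneg_right ?_ hκ0)
    have : ((pt e₁).erase y).card ≤ R :=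
      (Finset.card_le_card (Finset.erase_subset _ _)).trans (hpt e₁)
    exact_mod_cast this
  linarith

/-- indicator that the pick `a` is in `B` -/
noncomputable def hB (B : Finset E) : Option E → ℝ
  | none => 0
  | some e => if e ∈ B then 1 else 0

lemma surv_diff (B : Finset E) {j : I} {ω ω' : I → Option E} (h : ∀ i, i ≠ j → ω i = ω' i) :
    |surv B ω - surv B ω'| ≤ hB B (ω j) + hB B (ω' j) := by
  have hn : ∀ a : Option E, 0 ≤ hB B a := by
    intro a
    cases a with
    | none => exact le_rfl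
    | some e =>
      simp only [hB]
      split_ifs <;> norm_num
  have key : ∀ ω ω' : I → Option E, (∀ i, i ≠ j → ω i = ω' i) → surv B ω = 1 → surv B ω' = 0 →
      1 ≤ hB B (ω' j) := by
    intro ω ω' h h1 h0
    rcases surv_eq B ω' with ⟨h2, _⟩ | ⟨_, i, e, hi, he⟩
    · rw [h2] at h0
      norm_num at h0
    · rcases surv_eq B ω with ⟨_, h3⟩ | ⟨h3, _⟩
      · by_cases hij : i = j
        · rw [← hij, hi]
          simp [hB, he]
        · exfalso
          have := h i hij
          rw [hi] at this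
          exact h3 i e this he
      · rw [h3] at h1
        norm_num at h1
  have n1 := hn (ω j)
  have n2 := hn (ω' j)
  rcases surv_eq B ω with ⟨h1, _⟩ | ⟨h1, _⟩
  · rcases surv_eq B ω' with ⟨h2, _⟩ | ⟨h2, _⟩
    · rw [h1, h2]
      simp only [sub_self, abs_zero]
      linarith
    · have := key ω ω' h h1 h2
      rw [h1, h2]
      simp only [sub_zero, abs_one]
      linarith
  · rcases surv_eq B ω' with ⟨h2, _⟩ | ⟨h2, _⟩
    · have := key ω' ω (fun i hi => (h i hi).symm) h2 h1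
      rw [h1, h2]
      simp only [zero_sub, abs_neg, abs_one]
      linarith
    · rw [h1, h2]
      simp only [sub_self, abs_zero]
      linarith

lemma Z_diff (hS : St pt A v β κ) (hθ : 0 < θ) (hθR : θ * R ≤ 1)
    (hpt : ∀ e, (pt e).card ≤ R) (hκ0 : 0 ≤ κ) (y : Y) {j : I} {ω ω' : I → Option E}
    (h : ∀ i, i ≠ j → ω i = ω' i) :
    |Zf pt θ v y ω - Zf pt θ v y ω'| ≤ 6 * (R * κ) := by
  have hh : ∀ a : Option E, ∑ e ∈ univ.filter (fun e => y ∈ pt e), v e * cx pt θ e *
      hB (Bad pt e y) a ≤ 3 * (R * κ) := by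
    intro a
    cases a with
    | none =>
      simp only [hB, mul_zero, Finset.sum_const_zero]
      positivity
    | some e₁ => exact infl hS hθ hθR hpt hκ0 y e₁
  unfold Zf
  rw [← Finset.sum_sub_distrib]
  refine (Finset.abs_sum_le_sum_abs _ _).trans ?_
  have h1 : ∀ e ∈ univ.filter (fun e => y ∈ pt e),
      |v e * cx pt θ e * surv (Bad pt e y) ω - v e * cx pt θ e * surv (Bad pt e y) ω'| ≤
        v e * cx pt θ e * hB (Bad pt e y) (ω j) + v e * cx pt θ e * hB (Bad pt e y) (ω' j) := by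
    intro e _
    have h2 : 0 ≤ v e * cx pt θ e := mul_nonneg (hS.nn e) (cx_pos e).le
    rw [← mul_sub, abs_mul, abs_of_nonneg h2, ← mul_add]
    exact mul_le_mul_of_nonneg_left (surv_diff _ h) h2
  refine (Finset.sum_le_sum h1).trans ?_
  rw [Finset.sum_add_distrib]
  have := hh (ω j)
  have := hh (ω' j)
  linarith

/-- number of picks -/
noncomputable def Np (ω : I → Option E) : ℝ := ∑ i, (if ω i = none then (0 : ℝ) else 1)

lemma Np_diff {j : I} {ω ω' : I → Option E} (h : ∀ i, i ≠ j → ω i = ω' i) :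
    |Np ω - Np ω'| ≤ 1 := by
  unfold Np
  rw [← Finset.sum_sub_distrib, Finset.sum_eq_single j]
  · split_ifs <;> simp
  · intro i _ hi
    rw [h i hi, sub_self]
  · intro h
    exact absurd (Finset.mem_univ _) h

lemma ex_Np (hσ : ∀ e i, σ i ∈ pt e ↔ ι e = i) :
    Ex (pp σ ι pt θ v) (Np : (I → Option E) → ℝ) = ∑ i, θ * deg pt v (σ i) := by
  unfold Np
  rw [ex_sum]
  refine Finset.sum_congr rfl fun i _ => ?_
  have h := ex_coord (p := pp σ ι pt θ v) (fun i => pp_sum hσ i) i
    (fun a => if a = none then (0 : ℝ) else 1)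
  rw [h, Fintype.sum_option]
  simp only [pp, if_true, mul_zero, zero_add, reduceCtorEq, if_false, mul_one]
  rw [deg_idx hσ, ← Finset.sum_filter, ← Finset.mul_sum]

/-- number of conflicts -/
noncomputable def gc (pt : E → Finset Y) (ω : I → Option E) : ℝ :=
  ∑ i, ∑ j, ∑ e, ∑ e', (if i ≠ j ∧ ¬ Disjoint (pt e) (pt e') then (1 : ℝ) else 0) *
    ((if ω i = some e then 1 else 0) * (if ω j = some e' then (1 : ℝ) else 0))

lemma gc_nonneg (ω : I → Option E) : 0 ≤ gc pt ω := by
  unfold gc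
  refine Finset.sum_nonneg fun i _ => Finset.sum_nonneg fun j _ => Finset.sum_nonneg fun e _ =>
    Finset.sum_nonneg fun e' _ => ?_
  split_ifs <;> norm_num

lemma sum_v (hσ : ∀ e i, σ i ∈ pt e ↔ ι e = i) : ∑ e, v e = ∑ i, deg pt v (σ i) := by
  simp only [deg_idx hσ]
  exact (Finset.sum_fiberwise univ ι v).symm

lemma ex_gc (hσ : ∀ e i, σ i ∈ pt e ↔ ι e = i) (hS : St pt A v β κ) (hθ : 0 < θ)
    (hpt : ∀ e, (pt e).card ≤ R) (hβ0 : 0 ≤ β) (hβ : β ≤ 1) :
    Ex (pp σ ι pt θ v) (gc pt : (I → Option E) → ℝ) ≤ 4 * R * θ ^ 2 * Fintype.card I := by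
  have h1 : Ex (pp σ ι pt θ v) (gc pt : (I → Option E) → ℝ) = ∑ i, ∑ j, ∑ e, ∑ e',
      (if i ≠ j ∧ ¬ Disjoint (pt e) (pt e') then (1 : ℝ) else 0) *
        (pp σ ι pt θ v i (some e) * pp σ ι pt θ v j (some e')) := by
    unfold gc
    rw [ex_sum]
    refine Finset.sum_congr rfl fun i _ => ?_
    rw [ex_sum]
    refine Finset.sum_congr rfl fun j _ => ?_
    rw [ex_sum]
    refine Finset.sum_congr rfl fun e _ => ?_
    rw [ex_sum]
    refine Finset.sum_congr rfl fun e' _ => ?_
    rw [ex_mul]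
    by_cases hij : i = j
    · simp [hij]
    · rw [ex_two (fun i => pp_sum hσ i) hij]
  have h2 : ∀ i j e e', (if i ≠ j ∧ ¬ Disjoint (pt e) (pt e') then (1 : ℝ) else 0) *
      (pp σ ι pt θ v i (some e) * pp σ ι pt θ v j (some e')) ≤
      (if ι e = i then (1 : ℝ) else 0) * ((if ι e' = j then (1 : ℝ) else 0) *
        (if ¬ Disjoint (pt e') (pt e) then θ ^ 2 * (v e * v e') else 0)) := by
    intro i j e e'
    have hv : 0 ≤ θ ^ 2 * (v e * v e') :=
      mul_nonneg (sq_nonneg _) (mul_nonneg (hS.nn e) (hS.nn e'))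
    simp only [pp]
    by_cases a1 : ι e = i
    · by_cases a2 : ι e' = j
      · by_cases a3 : Disjoint (pt e) (pt e')
        · simp [a3, a3.symm]
        · have a4 : ¬ Disjoint (pt e') (pt e) := fun h => a3 h.symm
          by_cases a5 : i = j
          · simp [a1, a2, a5, a4, hv]
          · simp only [a1, a2, a3, a4, a5, ne_eq, not_false_eq_true, and_self, if_true, one_mul]
            linarith
      · simp [a2]
    · simp [a1]
  have h3 : Ex (pp σ ι pt θ v) (gc pt : (I → Option E) → ℝ) ≤ ∑ e, θ ^ 2 * v e * mt pt v (pt e) := by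
    rw [h1]
    refine (Finset.sum_le_sum fun i _ => Finset.sum_le_sum fun j _ => Finset.sum_le_sum fun e _ =>
      Finset.sum_le_sum fun e' _ => h2 i j e e').trans (le_of_eq ?_)
    have e1 : ∀ i : I, ∑ j : I, ∑ e : E, ∑ e' : E, (if ι e = i then (1 : ℝ) else 0) *
        ((if ι e' = j then (1 : ℝ) else 0) *
          (if ¬ Disjoint (pt e') (pt e) then θ ^ 2 * (v e * v e') else 0)) =
        ∑ e : E, (if ι e = i then (1 : ℝ) else 0) * (θ ^ 2 * v e * mt pt v (pt e)) := by
      intro i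
      rw [Finset.sum_comm]
      refine Finset.sum_congr rfl fun e _ => ?_
      rw [Finset.sum_comm]
      have e2 : ∀ e' : E, ∑ j : I, (if ι e = i then (1 : ℝ) else 0) *
          ((if ι e' = j then (1 : ℝ) else 0) *
            (if ¬ Disjoint (pt e') (pt e) then θ ^ 2 * (v e * v e') else 0)) =
          (if ι e = i then (1 : ℝ) else 0) * (θ ^ 2 * v e *
            (if ¬ Disjoint (pt e') (pt e) then v e' else 0)) := by
        intro e'
        rw [← Finset.mul_sum, ← Finset.sum_mul, Finset.sum_ite_eq]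
        simp only [Finset.mem_univ, if_true, one_mul]
        congr 1
        split_ifs <;> ring
      rw [Finset.sum_congr rfl fun e' _ => e2 e', ← Finset.mul_sum, ← Finset.mul_sum,
        ← Finset.sum_filter]
      rfl
    rw [Finset.sum_congr rfl fun i _ => e1 i, Finset.sum_comm]
    refine Finset.sum_congr rfl fun e _ => ?_
    rw [← Finset.sum_mul, Finset.sum_ite_eq]
    simp
  have h4 : ∀ e, θ ^ 2 * v e * mt pt v (pt e) ≤ θ ^ 2 * v e * (2 * R) := by
    intro e
    have a1 : mt pt v (pt e) ≤ 2 * R := by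
      refine (mt_le pt hS.nn _).trans ?_
      have a2 : ∑ y ∈ pt e, deg pt v y ≤ ∑ y ∈ pt e, (2 : ℝ) :=
        Finset.sum_le_sum fun y _ => by linarith [deg_le hS hβ0 y]
      rw [Finset.sum_const, nsmul_eq_mul] at a2
      have a3 : ((pt e).card : ℝ) ≤ R := by exact_mod_cast hpt e
      linarith
    exact mul_le_mul_of_nonneg_left a1 (mul_nonneg (sq_nonneg _) (hS.nn e))
  have h5 : ∑ e, v e ≤ 2 * Fintype.card I := by
    rw [sum_v hσ]
    have a2 : ∑ i : I, deg pt v (σ i) ≤ ∑ i : I, (2 : ℝ) :=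
      Finset.sum_le_sum fun i _ => by linarith [deg_le hS hβ0 (σ i)]
    rw [Finset.sum_const, nsmul_eq_mul, Finset.card_univ] at a2
    linarith
  have h6 : ∑ e, θ ^ 2 * v e * mt pt v (pt e) ≤ θ ^ 2 * (2 * R) * ∑ e, v e := by
    rw [Finset.mul_sum]
    refine Finset.sum_le_sum fun e _ => ?_
    have := h4 e
    linarith
  have h7 : 0 ≤ θ ^ 2 * (2 * (R : ℝ)) := by positivity
  have h8 := mul_le_mul_of_nonneg_left h5 h7
  linarith

end round

end Pool.OM.helper81.NB
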