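import Pool.Agent.Work.MP_8d2cba_co_helper81.NBround

/-! Abstract nibble: the step. -/

set_option autoImplicit false
set_option linter.unusedSectionVars false
set_option linter.unusedVariables false

namespace Pool.OM.helper81.NB

open Finset

section step
variable {I Y E : Type} [Fintype I] [DecidableEq I] [Fintype Y] [DecidableEq Y] [Fintype E]
  [DecidableEq E] {σ : I → Y} {ι : E → I} {pt : E → Finset Y}
  {A : Finset Y} {v : E → ℝ} {β κ θ : ℝ} {R : ℕ}

/-- surviving points -/
def nA (pt : E → Finset Y) (A : Finset Y) (ω : I → Option E) : Finset Y :=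
  A.filter fun y => ∀ i e, ω i = some e → y ∉ pt e

/-- new weights -/
noncomputable def nv (pt : E → Finset Y) (A : Finset Y) (θ : ℝ) (v : E → ℝ) (ω : I → Option E)
    (e : E) : ℝ :=
  if pt e ⊆ nA pt A ω then v e * cx pt θ e else 0

/-- chosen edges -/
def nF (ι : E → I) (pt : E → Finset Y) (ω : I → Option E) : Finset E :=
  univ.filter fun e => ω (ι e) = some e ∧
    ∀ j e', j ≠ ι e → ω j = some e' → Disjoint (pt e) (pt e')

lemma deg_nv (hS : St pt A v β κ) {ω : I → Option E} {y : Y} (hy : y ∈ nA pt A ω) :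
    deg pt (nv pt A θ v ω) y = Zf pt θ v y ω := by
  unfold deg Zf
  refine Finset.sum_congr rfl fun e he => ?_
  simp only [Finset.mem_filter, Finset.mem_univ, true_and] at he
  unfold nv
  by_cases hv : v e = 0
  · simp [hv]
  have hA := hS.sup e hv
  have hy' := hy
  unfold nA at hy'
  rw [Finset.mem_filter] at hy'
  rcases surv_eq (Bad pt e y) ω with ⟨h1, h2⟩ | ⟨h1, i, e', hi, he'⟩
  · rw [h1, mul_one, if_pos]
    intro z hz
    unfold nA
    rw [Finset.mem_filter]
    refine ⟨hA hz, fun i e' hi hz' => ?_⟩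
    by_cases hzy : z = y
    · rw [hzy] at hz'
      exact hy'.2 i e' hi hz'
    · apply h2 i e' hi
      unfold Bad
      simp only [Finset.mem_filter, Finset.mem_univ, true_and]
      rw [Finset.not_disjoint_iff]
      exact ⟨z, hz', Finset.mem_erase.mpr ⟨hzy, hz⟩⟩
  · rw [h1, mul_zero, if_neg]
    intro hsub
    unfold Bad at he'
    simp only [Finset.mem_filter, Finset.mem_univ, true_and] at he'
    rw [Finset.not_disjoint_iff] at he'
    obtain ⟨z, hz1, hz2⟩ := he'
    have := hsub (Finset.mem_of_mem_erase hz2)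
    unfold nA at this
    rw [Finset.mem_filter] at this
    exact this.2 i e' hi hz1

lemma st_nv (hS : St pt A v β κ) (hθ : 0 < θ) (hθR : θ * R ≤ 1)
    (hpt : ∀ e, (pt e).card ≤ R) {β' : ℝ} {ω : I → Option E}
    (h : ∀ y ∈ A, |Zf pt θ v y ω - 1| ≤ β') :
    St pt (nA pt A ω) (nv pt A θ v ω) β' (Real.exp (θ * R) * κ) := by
  have hn : ∀ e, 0 ≤ v e * cx pt θ e := fun e => mul_nonneg (hS.nn e) (cx_pos e).le
  refine ⟨fun e => ?_, fun e he => ?_, fun y hy => ?_, fun y y' hyy => ?_⟩
  · unfold nv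
    split_ifs
    · exact hn e
    · exact le_rfl
  · unfold nv at he
    by_contra hc
    rw [if_neg hc] at he
    exact he rfl
  · rw [deg_nv hS hy]
    apply h y
    unfold nA at hy
    exact (Finset.mem_filter.mp hy).1
  · have h1 := hS.cd y y' hyy
    have h2 : cod pt (nv pt A θ v ω) y y' ≤ Real.exp (θ * R) * cod pt v y y' := by
      unfold cod
      rw [Finset.mul_sum]
      apply Finset.sum_le_sum
      intro e _
      have h3 := (cx_le hθ hθR hpt e).2
      have h4 := hS.nn e
      have h5 : v e * cx pt θ e ≤ Real.exp (θ * R) * v e := by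
        rw [mul_comm (Real.exp (θ * R))]
        exact mul_le_mul_of_nonneg_left h3 h4
      unfold nv
      split_ifs
      · exact h5
      · exact (hn e).trans h5
    exact h2.trans (mul_le_mul_of_nonneg_left h1 (Real.exp_pos _).le)

lemma mem_nA (hσ : ∀ e i, σ i ∈ pt e ↔ ι e = i) {ω : I → Option E}
    (hsome : ∀ i e, ω i = some e → ι e = i) (i : I) :
    σ i ∈ nA pt A ω ↔ σ i ∈ A ∧ ω i = none := by
  unfold nA
  rw [Finset.mem_filter]
  constructor
  · rintro ⟨h1, h2⟩
    refine ⟨h1, ?_⟩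
    cases h3 : ω i with
    | none => rfl
    | some e => exact absurd ((hσ e i).mpr (hsome i e h3)) (h2 i e h3)
  · rintro ⟨h1, h2⟩
    refine ⟨h1, fun j e hj hi => ?_⟩
    have h3 := (hσ e i).mp hi
    have h4 := hsome j e hj
    rw [h4] at h3
    rw [h3, h2] at hj
    cases hj

lemma card_AI (hσ : ∀ e i, σ i ∈ pt e ↔ ι e = i) {ω : I → Option E}
    (hsome : ∀ i e, ω i = some e → ι e = i) (hsub : ∀ i e, ω i = some e → pt e ⊆ A) :
    ((AI σ A).card : ℝ) = (AI σ (nA pt A ω)).card + Np ω := by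
  have hA' := mem_nA (A := A) hσ hsome
  set Q : Finset I := univ.filter fun i => ω i ≠ none with hQ
  have e1 : Np ω = (Q.card : ℝ) := by
    unfold Np
    rw [hQ, Finset.card_filter]
    push_cast
    refine Finset.sum_congr rfl fun i _ => ?_
    by_cases h : ω i = none <;> simp [h]
  rw [e1]
  have e2 : AI σ A = AI σ (nA pt A ω) ∪ Q := by
    ext i
    simp only [AI, hQ, Finset.mem_filter, Finset.mem_univ, true_and, Finset.mem_union, hA']
    constructor
    · intro h
      by_cases h1 : ω i = none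
      · exact Or.inl ⟨h, h1⟩
      · exact Or.inr h1
    · rintro (h | h)
      · exact h.1
      · obtain ⟨e, he⟩ := Option.ne_none_iff_exists'.mp h
        exact hsub i e he ((hσ e i).mpr (hsome i e he))
  have e3 : Disjoint (AI σ (nA pt A ω)) Q := by
    rw [Finset.disjoint_left]
    intro i h1 h2
    simp only [AI, hQ, Finset.mem_filter, Finset.mem_univ, true_and, hA'] at h1 h2
    exact h2 h1.2
  have e4 : (AI σ A).card = (AI σ (nA pt A ω)).card + Q.card := by
    rw [← Finset.card_union_of_disjoint e3, ← e2]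
  rw [e4]
  push_cast
  rfl

/-- conflict indicator -/
noncomputable def cf (pt : E → Finset Y) (ω : I → Option E) (i j : I) (e e' : E) : ℝ :=
  (if i ≠ j ∧ ¬ Disjoint (pt e) (pt e') then (1 : ℝ) else 0) *
    ((if ω i = some e then 1 else 0) * (if ω j = some e' then (1 : ℝ) else 0))

lemma cf_nonneg (ω : I → Option E) (i j : I) (e e' : E) : 0 ≤ cf pt ω i j e e' := by
  unfold cf
  refine mul_nonneg ?_ (mul_nonneg ?_ ?_)
  · split_ifs
    · exact zero_le_one
    · exact le_rfl
  · split_ifs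
    · exact zero_le_one
    · exact le_rfl
  · split_ifs
    · exact zero_le_one
    · exact le_rfl

lemma gc_ge {ω : I → Option E} {i j : I} {e e' : E} (hij : i ≠ j)
    (hd : ¬ Disjoint (pt e) (pt e')) (hi : ω i = some e) (hj : ω j = some e') :
    1 ≤ ∑ j, ∑ e, ∑ e', cf pt ω i j e e' := by
  have s1 : cf pt ω i j e e' = 1 := by
    unfold cf
    rw [if_pos ⟨hij, hd⟩, if_pos hi, if_pos hj]
    norm_num
  have a1 : ∑ e, ∑ e', cf pt ω i j e e' ≤ ∑ j, ∑ e, ∑ e', cf pt ω i j e e' :=
    Finset.single_le_sum (f := fun j => ∑ e, ∑ e', cf pt ω i j e e')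
      (fun j' _ => Finset.sum_nonneg fun e1 _ => Finset.sum_nonneg fun e2 _ =>
        cf_nonneg ω i j' e1 e2) (Finset.mem_univ j)
  have a2 : ∑ e', cf pt ω i j e e' ≤ ∑ e, ∑ e', cf pt ω i j e e' :=
    Finset.single_le_sum (f := fun e => ∑ e', cf pt ω i j e e')
      (fun e1 _ => Finset.sum_nonneg fun e2 _ => cf_nonneg ω i j e1 e2) (Finset.mem_univ e)
  have a3 : cf pt ω i j e e' ≤ ∑ e', cf pt ω i j e e' :=
    Finset.single_le_sum (f := fun e' => cf pt ω i j e e')
      (fun e2 _ => cf_nonneg ω i j e e2) (Finset.mem_univ e')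
  linarith

lemma Np_le {ω : I → Option E} (hsome : ∀ i e, ω i = some e → ι e = i) :
    Np ω ≤ ((nF ι pt ω).card : ℝ) + gc pt ω := by
  have e2 : (((nF ι pt ω).image ι).card : ℝ) ≤ ((nF ι pt ω).card : ℝ) := by
    exact_mod_cast Finset.card_image_le
  have e3 : (((nF ι pt ω).image ι).card : ℝ) =
      ∑ i, (if i ∈ (nF ι pt ω).image ι then (1 : ℝ) else 0) := by
    rw [Finset.sum_ite_mem, Finset.univ_inter, Finset.sum_const]
    simp
  have e4 : gc pt ω = ∑ i, ∑ j, ∑ e, ∑ e', cf pt ω i j e e' := rfl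
  have e5 : Np ω ≤ (((nF ι pt ω).image ι).card : ℝ) + gc pt ω := by
    rw [e3, e4, ← Finset.sum_add_distrib]
    unfold Np
    apply Finset.sum_le_sum
    intro i _
    have hnn : 0 ≤ ∑ j, ∑ e, ∑ e', cf pt ω i j e e' :=
      Finset.sum_nonneg fun j _ => Finset.sum_nonneg fun e _ =>
        Finset.sum_nonneg fun e' _ => cf_nonneg ω i j e e'
    by_cases hF : i ∈ (nF ι pt ω).image ι
    · rw [if_pos hF]
      have : (if ω i = none then (0 : ℝ) else 1) ≤ 1 := by
        split_ifs
        · exact zero_le_one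
        · exact le_rfl
      linarith
    · rw [if_neg hF, zero_add]
      cases hi : ω i with
      | none =>
        rw [if_pos rfl]
        exact hnn
      | some e =>
        rw [if_neg (by simp)]
        have hex : ∃ j e', j ≠ i ∧ ω j = some e' ∧ ¬ Disjoint (pt e) (pt e') := by
          by_contra hno
          push Not at hno
          apply hF
          have hie := hsome i e hi
          refine Finset.mem_image.mpr ⟨e, ?_, hie⟩
          simp only [nF, Finset.mem_filter, Finset.mem_univ, true_and]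
          rw [hie]
          exact ⟨hi, fun j e' hj he' => hno j e' hj he'⟩
        obtain ⟨j, e', hj, he', hd⟩ := hex
        exact gc_ge hj.symm hd hi he'
  linarith

theorem step (hM : Stmt_MCD2) (hσ : ∀ e i, σ i ∈ pt e ↔ ι e = i) (hS : St pt A v β κ)
    (hθ : 0 < θ) (hθ2 : θ ≤ 1/2) (hθR : θ * R ≤ 1) (hpt : ∀ e, (pt e).card ≤ R) (hβ0 : 0 ≤ β)
    (hβ : β ≤ 1/2) (hκ0 : 0 ≤ κ) (hκR : R * κ ≤ 1) (δ δ' s₁ s₂ : ℝ) (hδ : 0 < δ) (hδ' : 0 < δ')
    (hs1 : Fintype.card I * (6 * (R * κ)) ^ 2 ≤ s₁) (hs1' : 0 < s₁)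
    (hs2 : (Fintype.card I : ℝ) ≤ s₂) (hs2' : 0 < s₂)
    (hexp : Fintype.card Y * (2 * Real.exp (-δ ^ 2 / (2 * s₁))) +
      2 * Real.exp (-δ' ^ 2 / (2 * s₂)) < 1/2) :
    ∃ (A' : Finset Y) (v' : E → ℝ) (F : Finset E), A' ⊆ A ∧
      St pt A' v' (β + 2 * (22 * (R : ℝ) ^ 2 * θ ^ 2 + θ * R * β + θ * (R : ℝ) ^ 2 * κ) + δ)
        (Real.exp (θ * R) * κ) ∧
      (∀ e ∈ F, pt e ⊆ A) ∧ (∀ e ∈ F, Disjoint (pt e) A') ∧
      (∀ e ∈ F, ∀ e' ∈ F, e ≠ e' → Disjoint (pt e) (pt e')) ∧
      ((AI σ A').card : ℝ) ≤ (1 - θ / 2) * (AI σ A).card + δ' ∧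
      ((AI σ A).card : ℝ) ≤ (AI σ A').card + F.card + 8 * R * θ ^ 2 * Fintype.card I := by
  have hβ1 : β ≤ 1 := by linarith
  set p := pp σ ι pt θ v with hp
  obtain ⟨ω, hpos, hcon, hg⟩ := hM I (Option E) (Option Y) p
    (fun j => j.elim Np (Zf pt θ v)) (fun j _ => j.elim 1 (fun _ => 6 * (R * κ)))
    (fun j => j.elim s₂ (fun _ => s₁)) (fun j => j.elim δ' (fun _ => δ))
    (fun i a => pp_nonneg hS hθ hθ2 hβ0 hβ1 i a) (fun i => pp_sum hσ i)
    (by
      intro j i ω ω' h
      cases j with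
      | none => exact Np_diff h
      | some y => exact Z_diff hS hθ hθR hpt hκ0 y h)
    (by
      intro j
      cases j with
      | none =>
        simp only [Option.elim, one_pow, Finset.sum_const, Finset.card_univ, nsmul_eq_mul, mul_one]
        exact hs2
      | some y =>
        simp only [Option.elim, Finset.sum_const, Finset.card_univ, nsmul_eq_mul]
        exact hs1)
    (by
      intro j
      cases j with
      | none => exact hs2'
      | some y => exact hs1')
    (by
      intro j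
      cases j with
      | none => exact hδ'.le
      | some y => exact hδ.le)
    (by
      rw [Fintype.sum_option]
      simp only [Option.elim, Finset.sum_const, Finset.card_univ, nsmul_eq_mul]
      linarith)
    (gc pt) gc_nonneg
  have hsome : ∀ i e, ω i = some e → ι e = i ∧ 0 < v e := by
    intro i e h
    have h1 := hpos i
    rw [h] at h1
    simp only [hp, pp] at h1
    by_cases h2 : ι e = i
    · rw [if_pos h2] at h1
      exact ⟨h2, (mul_pos_iff_of_pos_left hθ).mp h1⟩
    · rw [if_neg h2] at h1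
      exact absurd h1 (lt_irrefl _)
  have hsub : ∀ i e, ω i = some e → pt e ⊆ A := fun i e h => hS.sup e (hsome i e h).2.ne'
  have hso : ∀ i e, ω i = some e → ι e = i := fun i e h => (hsome i e h).1
  have hcard := card_AI hσ hso hsub
  refine ⟨nA pt A ω, nv pt A θ v ω, nF ι pt ω, Finset.filter_subset _ _, ?_, ?_, ?_, ?_, ?_, ?_⟩
  · apply st_nv hS hθ hθR hpt
    intro y hy
    have h1 := hcon (some y)
    simp only [Option.elim] at h1
    have h2 := ex_Z hσ hS hθ hθ2 hθR hpt hβ0 hβ1 hκ0 hκR hy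
    have h3 := abs_add_le (Zf pt θ v y ω - Ex (pp σ ι pt θ v) (Zf pt θ v y))
      (Ex (pp σ ι pt θ v) (Zf pt θ v y) - 1)
    rw [sub_add_sub_cancel] at h3
    have h4 : |Zf pt θ v y ω - Ex (pp σ ι pt θ v) (Zf pt θ v y)| < δ := h1
    linarith
  · intro e he
    simp only [nF, Finset.mem_filter, Finset.mem_univ, true_and] at he
    exact hsub _ e he.1
  · intro e he
    simp only [nF, Finset.mem_filter, Finset.mem_univ, true_and] at he
    rw [Finset.disjoint_left]
    intro y hy hy'
    unfold nA at hy'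
    exact (Finset.mem_filter.mp hy').2 _ e he.1 hy
  · intro e he e' he' hne
    simp only [nF, Finset.mem_filter, Finset.mem_univ, true_and] at he he'
    refine he.2 (ι e') e' ?_ he'.1
    intro h
    have h1 := he'.1
    rw [h, he.1] at h1
    exact hne (Option.some.inj h1)
  · have h1 := hcon none
    simp only [Option.elim] at h1
    have h2 : |Np ω - Ex (pp σ ι pt θ v) (Np : (I → Option E) → ℝ)| < δ' := h1
    rw [ex_Np hσ] at h2
    have h3 : θ / 2 * (AI σ A).card ≤ ∑ i, θ * deg pt v (σ i) := by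
      have h4 : ∑ i ∈ AI σ A, θ / 2 ≤ ∑ i ∈ AI σ A, θ * deg pt v (σ i) := by
        apply Finset.sum_le_sum
        intro i hi
        simp only [AI, Finset.mem_filter, Finset.mem_univ, true_and] at hi
        have := (abs_le.mp (hS.dg _ hi)).1
        nlinarith
      have h5 : ∑ i ∈ AI σ A, θ * deg pt v (σ i) ≤ ∑ i, θ * deg pt v (σ i) :=
        Finset.sum_le_sum_of_subset_of_nonneg (Finset.subset_univ _)
          fun i _ _ => mul_nonneg hθ.le (deg_nonneg hS _)
      rw [Finset.sum_const, nsmul_eq_mul] at h4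
      linarith
    have h6 := (abs_lt.mp h2).1
    linarith
  · rw [hcard]
    have h1 : Np ω ≤ ((nF ι pt ω).card : ℝ) + gc pt ω := Np_le hso
    have h2 : gc pt ω ≤ 2 * Ex (pp σ ι pt θ v) (gc pt : (I → Option E) → ℝ) := hg
    have h3 := ex_gc hσ hS hθ hpt hβ0 hβ1
    linarith

end step

end Pool.OM.helper81.NB
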